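import Pool.Agent.Lib.MP_c1785c_lc.S3.Tab3

/-!
Heights along towers and rails are forced, and the links impose their colour constraints.
-/

set_option autoImplicit false

namespace Pool.Agent.Lib.MP_c1785c_lc.S3

/-- the gear with shift `b` has height four -/
def Tall (f : ℕ → ℤ) (b : ℕ) : Prop := f (68 + b) = f (256 + b) + 4 ∨ f (256 + b) = f (68 + b) + 4

lemma gear_line {f : ℕ → ℤ} {b : ℕ} (he : ∀ e ∈ gearE b, St (f e.1) (f e.2)) :
    (f (68 + b) = f (256 + b) + 4 → f (98 + b) = f (256 + b) + 2 ∧ f (67 + b) = f (256 + b) + 3 ∧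
      f (131 + b) = f (256 + b) + 3) ∧
    (f (256 + b) = f (68 + b) + 4 → f (256 + b) = f (67 + b) + 3) := by
  have k := fun i j (h : (i, j) ∈ GE) => he _ (List.mem_map_of_mem h)
  have a0 : St (f (256 + b)) (f (161 + b)) := k 0 1 (by decide)
  have a1 : St (f (161 + b)) (f (98 + b)) := k 1 2 (by decide)
  have a2 : St (f (98 + b)) (f (67 + b)) := k 2 3 (by decide)
  have a3 : St (f (67 + b)) (f (68 + b)) := k 3 4 (by decide)
  have a4 : St (f (68 + b)) (f (131 + b)) := k 4 5 (by decide)
  have a5 : St (f (131 + b)) (f (226 + b)) := k 5 6 (by decide)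
  have a6 : St (f (226 + b)) (f (225 + b)) := k 6 7 (by decide)
  have a7 : St (f (225 + b)) (f (256 + b)) := k 7 0 (by decide)
  unfold St at *
  omega

lemma gear_sub {n o j : ℕ} (hj : j < n) : ∀ e ∈ gearE (o + 2 * j), e ∈ tower n o := fun _ he =>
  List.mem_flatMap.mpr ⟨j, List.mem_range.mpr hj, List.mem_append_left _ he⟩

lemma tower_up {f : ℕ → ℤ} {n o : ℕ} (he : ∀ e ∈ tower n o, St (f e.1) (f e.2))
    (hg : ∀ j < n, Tall f (o + 2 * j)) (h0 : f (68 + o) = f (256 + o) + 4) :
    ∀ j < n, f (256 + (o + 2 * j)) = f (256 + o) + 2 * j ∧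
      f (68 + (o + 2 * j)) = f (256 + o) + 2 * j + 4 := by
  intro j
  induction j with
  | zero => exact fun _ => by simpa using h0
  | succ j ih =>
    intro h
    have a := ih (by omega)
    have b := gear_line fun e k => he e (gear_sub (show j < n by omega) e k)
    have c := gear_line fun e k => he e (gear_sub h e k)
    have m : ∀ e ∈ [(131 + (o + 2 * j), 256 + (o + 2 * (j + 1))),
        (68 + (o + 2 * j), 67 + (o + 2 * (j + 1)))], St (f e.1) (f e.2) := fun e k =>
      he e (List.mem_flatMap.mpr ⟨j, List.mem_range.mpr (by omega),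
        List.mem_append_right _ (by rwa [if_pos h])⟩)
    have d1 : St (f (131 + (o + 2 * j))) (f (256 + (o + 2 * (j + 1)))) := m _ List.mem_cons_self
    have d2 : St (f (68 + (o + 2 * j))) (f (67 + (o + 2 * (j + 1)))) :=
      m _ (List.mem_cons_of_mem _ List.mem_cons_self)
    have g := hg _ h
    clear he hg m ih
    unfold Tall St at *
    push_cast
    omega

lemma rail_up {f : ℕ → ℤ} {a x n b : ℕ} (he : ∀ e ∈ rail a x n b, St (f e.1) (f e.2))
    (h : f b = f a + n + 2) : ∀ i ≤ n, f (x + i) = f a + i + 1 := by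
  have e0 : St (f a) (f x) := he _ List.mem_cons_self
  have e1 : St (f (x + n)) (f b) := he _ (List.mem_cons_of_mem _
    (List.mem_append_right _ List.mem_cons_self))
  have e : ∀ i < n, St (f (x + i)) (f (x + (i + 1))) := fun i hi => he _ (List.mem_cons_of_mem _
    (List.mem_append_left _ (List.mem_map.mpr ⟨i, List.mem_range.mpr hi, rfl⟩)))
  have u : ∀ i j, i + j ≤ n → f (x + (i + j)) ≤ f (x + i) + j := fun i j => by
    induction j with
    | zero => simp
    | succ j ih =>
      intro k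
      have := ih (by omega)
      have := e (i + j) (by omega)
      unfold St at *
      rw [← add_assoc i j 1]
      push_cast
      omega
  intro i hi
  have u1 := u 0 i (by omega)
  have u2 := u i (n - i) (by omega)
  rw [zero_add, add_zero] at u1
  rw [Nat.add_sub_cancel' hi, Nat.cast_sub hi] at u2
  unfold St at *
  omega

lemma St.neg {a b : ℤ} (h : St a b) : St (-a) (-b) := by unfold St at *; omega

lemma Tall.neg {f : ℕ → ℤ} {b : ℕ} (h : Tall f b) : Tall (fun k => -f k) b := by
  unfold Tall at *; beta_reduce; omega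

/-- the ports of a node have the heights of the standard drawing, read with the sign `s` -/
def Rg (f : ℕ → ℤ) (s : ℤ) : Prop := ∀ x ∈ [32, 288], f (x + 4) = f 292 ∧ f (x + 5) = f 292 + s ∧
  f (x + 21) = f 292 + 17 * s ∧ f (x + 22) = f 292 + 18 * s ∧ f (x + 24) = f 292 + 20 * s

lemma node_up {f : ℕ → ℤ} (he : ∀ e ∈ node, St (f e.1) (f e.2))
    (hg : ∀ j < 12, Tall f (0 + 2 * j)) (h0 : f 68 = f 256 + 4) : Rg f 1 := by
  rw [node_eq] at he
  simp only [List.forall_mem_append] at he
  have t : f 278 = f 256 + 2 * 11 ∧ f 90 = f 256 + 2 * 11 + 4 :=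
    tower_up he.2.2 hg h0 11 (by decide)
  have a : f 98 = f 256 + 2 :=
    ((gear_line fun e k => he.2.2 e (gear_sub (j := 0) (by decide) e k)).1 h0).1
  have b : f 153 = f 278 + 3 := ((gear_line fun e k => he.2.2 e
    (gear_sub (j := 11) (by decide) e k)).1 (show f 90 = f 278 + 4 by omega)).2.2
  have l := rail_up he.1 (show f 90 = f 98 + 22 + 2 by omega)
  have r := rail_up he.2.1 (show f 153 = f 256 + 23 + 2 by omega)
  have : f 36 = f 98 + 1 + 1 := l 1 (by decide)
  have : f 37 = f 98 + 2 + 1 := l 2 (by decide)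
  have : f 53 = f 98 + 18 + 1 := l 18 (by decide)
  have : f 54 = f 98 + 19 + 1 := l 19 (by decide)
  have : f 56 = f 98 + 21 + 1 := l 21 (by decide)
  have : f 292 = f 256 + 3 + 1 := r 3 (by decide)
  have : f 293 = f 256 + 4 + 1 := r 4 (by decide)
  have : f 309 = f 256 + 20 + 1 := r 20 (by decide)
  have : f 310 = f 256 + 21 + 1 := r 21 (by decide)
  have : f 312 = f 256 + 23 + 1 := r 23 (by decide)
  clear he hg l r
  intro x hx
  simp only [List.mem_cons, List.not_mem_nil, or_false] at hx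
  rcases hx with rfl | rfl <;> simp only [Nat.reduceAdd, true_and] <;> omega

lemma node_rigid {f : ℕ → ℤ} (he : ∀ e ∈ node, St (f e.1) (f e.2))
    (hg : ∀ j < 12, Tall f (0 + 2 * j)) : Rg f 1 ∨ Rg f (-1) := by
  refine (hg 0 (by decide)).imp (node_up he hg) fun h x hx => ?_
  have h' : f 256 = f 68 + 4 := h
  have := node_up (f := fun k => -f k) (fun e k => (he e k).neg) (fun j k => (hg j k).neg)
    (by beta_reduce; omega) x hx
  beta_reduce at this
  omega

lemma piece_up {f : ℕ → ℤ} (he : ∀ e ∈ piece, St (f e.1) (f e.2))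
    (hg : ∀ j < 3, Tall f (2048 + 2 * j)) (h0 : f 2116 = f 2304 + 4) : f 2183 = f 2081 + 6 := by
  rw [piece_eq] at he
  simp only [List.forall_mem_append] at he
  have t : f 2308 = f 2304 + 2 * 2 ∧ f 2120 = f 2304 + 2 * 2 + 4 :=
    tower_up he.2 hg h0 2 (by decide)
  have b : f 2183 = f 2308 + 3 := ((gear_line fun e k => he.2 e
    (gear_sub (j := 2) (by decide) e k)).1 (show f 2120 = f 2308 + 4 by omega)).2.2
  have : f 2081 = f 2304 + 0 + 1 :=
    rail_up he.1 (show f 2120 = f 2304 + 6 + 2 by omega) 0 (by decide)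
  omega

lemma piece_rigid {f : ℕ → ℤ} (he : ∀ e ∈ piece, St (f e.1) (f e.2))
    (hg : ∀ j < 3, Tall f (2048 + 2 * j)) : f 2183 = f 2081 + 6 ∨ f 2081 = f 2183 + 6 := by
  refine (hg 0 (by decide)).imp (piece_up he hg) fun h => ?_
  have h' : f 2304 = f 2116 + 4 := h
  have := piece_up (f := fun k => -f k) (fun e k => (he e k).neg) (fun j k => (hg j k).neg)
    (by beta_reduce; omega)
  beta_reduce at this
  omega

/-- the colour read off a height -/
def colr (x : ℤ) : Fin 3 := ⟨(x % 12 / 4).toNat, by omega⟩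

lemma link_sound3 {d τ : ℕ} (hd : d = 1 ∨ d = 2) {f A B : ℕ → ℤ} (n : ℤ)
    (hA : ∀ k < 1024, f k = A k) (hB : ∀ k < 1024, f (1024 + k) = B k)
    (he : ∀ e ∈ ed3 d τ, St (f e.1) (f e.2)) (hg : τ = 2 → ∀ j < 3, Tall f (2048 + 2 * j))
    (rA : Rg A 1 ∨ Rg A (-1)) (rB : Rg B 1 ∨ Rg B (-1)) :
    Ok τ (colr (A 292 + 6 * n)) (colr (B 292 + 6 * (n + 1))) := by
  obtain ⟨x, hx, y, hy, ex, ey⟩ : ∃ x ∈ [32, 288], ∃ y ∈ [32, 288], sA d = x ∧ sB d = 1024 + y := by
    rcases hd with rfl | rfl <;> decide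
  have bx : x ≤ 288 ∧ y ≤ 288 := by
    simp only [List.mem_cons, List.not_mem_nil, or_false] at hx hy
    omega
  have ra := rA.imp (fun h => h x hx) fun h => h x hx
  have rb := rB.imp (fun h => h y hy) fun h => h y hy
  have a1 := hA (x + 21) (by omega)
  have a2 := hA (x + 22) (by omega)
  have a3 := hA (x + 24) (by omega)
  have b1 := hB (y + 4) (by omega)
  have b2 := hB (y + 5) (by omega)
  rw [ed3, if_neg (by omega), ex, ey, add_assoc, add_assoc] at he
  constructor <;> rintro rfl
  · rw [if_neg (by decide), if_pos rfl] at he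
    have c1 := he _ List.mem_cons_self
    have c2 := he _ (List.mem_cons_of_mem _ List.mem_cons_self)
    simp only [St, a1, a3, b1, b2] at c1 c2
    simp only [colr, Fin.mk.injEq]
    rcases ra with ra | ra <;> rcases rb with rb | rb <;> omega
  · rw [if_neg (by decide), if_neg (by decide)] at he
    have c1 := he _ List.mem_cons_self
    have c2 := he _ (List.mem_cons_of_mem _ List.mem_cons_self)
    have c3 := piece_rigid (fun e k => he e (List.mem_cons_of_mem _ (List.mem_cons_of_mem _ k)))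
      (hg rfl)
    simp only [St, a2, b1] at c1 c2
    simp only [colr, Ne, Fin.mk.injEq]
    rcases ra with ra | ra <;> rcases rb with rb | rb <;> omega

end Pool.Agent.Lib.MP_c1785c_lc.S3
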