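import Pool.Agent.Lib.MP_c1785c_lc.S3.Seg

/-!
The gear: an eight-cycle around a `K_{2,3}` has height four.
-/

set_option autoImplicit false

namespace Pool.Agent.Lib.MP_c1785c_lc.S3

open Set

/-- The edges of the gear. -/
def GE : List (Fin 13 × Fin 13) := [(0, 1), (1, 2), (2, 3), (3, 4), (4, 5), (5, 6), (6, 7), (7, 0),
  (8, 10), (8, 11), (8, 12), (9, 10), (9, 11), (9, 12), (10, 7), (12, 1)]

lemma pairs : ∀ i j k l : Fin 4, i ≠ j → k ≠ l → i ≠ k → i ≠ l → j ≠ k → j ≠ l →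
    ((s(i, j) = s(0, 2) ∧ s(k, l) = s(1, 3)) ∨ (s(i, j) = s(0, 1) ∧ s(k, l) = s(2, 3)) ∨
      (s(i, j) = s(0, 3) ∧ s(k, l) = s(1, 2))) ∨
    ((s(k, l) = s(0, 2) ∧ s(i, j) = s(1, 3)) ∨ (s(k, l) = s(0, 1) ∧ s(i, j) = s(2, 3)) ∨
      (s(k, l) = s(0, 3) ∧ s(i, j) = s(1, 2))) := by decide

namespace Ctx

variable {V : Type} [Finite V] (c : Ctx V) {h : V → ℤ}

/-- `a` and `b` lie in the segment of `x`, on different sides of `x`. -/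
def Sp (x a b : V) : Prop := c.sg a = c.sg x ∧ c.sg b = c.sg x ∧ Btw c.r a x b

lemma sep' {u w a x b : V} (hu : u ∈ c.W) (hw : w ∈ c.W) (h1 : a ∈ c.W) (h2 : x ∈ c.W)
    (h3 : b ∈ c.W) (ne : u ≠ w) (s : c.Sp x a b) (a1 : c.E u a) (a3 : c.E u b) (a2 : c.E w x) :
    c.cp (c.sg x) u ≠ c.cp (c.sg x) w :=
  s.2.2.elim (fun k => c.sep hu hw h1 h2 h3 ne s.1 s.2.1 k.1 k.2 a1 a3 a2)
    fun k => c.sep hu hw h3 h2 h1 ne s.2.1 s.1 k.1 k.2 a3 a1 a2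

omit [Finite V] in
lemma memJ {x a b y ya yb : V} (hx : x ∈ c.W) (ha : a ∈ c.W) (hb : b ∈ c.W) (s : c.Sp x a b)
    (hy : y ∈ c.D (c.sg x)) (da : ya ∈ c.D (c.sg x)) (db : yb ∈ c.D (c.sg x))
    (ea : c.cp (c.sg x) y = c.cp (c.sg x) ya) (eb : c.cp (c.sg x) y = c.cp (c.sg x) yb)
    (a1 : c.E ya a) (a2 : c.E yb b) : x ∈ c.J (c.sg x) (c.cp (c.sg x) y) :=
  have ma : ya ∈ c.cp (c.sg x) y := ea ▸ Conn.refl da
  have mb : yb ∈ c.cp (c.sg x) y := eb ▸ Conn.refl db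
  s.2.2.elim (fun k => ⟨hx, rfl, ⟨y, hy, rfl⟩, ⟨ya, ma, a, ha, s.1, a1, k.1⟩,
    yb, mb, b, hb, s.2.1, a2, k.2⟩) fun k => ⟨hx, rfl, ⟨y, hy, rfl⟩,
    ⟨yb, mb, b, hb, s.2.1, a2, k.1⟩, ya, ma, a, ha, s.1, a1, k.2⟩

variable (h3 : ∀ x, ∀ u ∈ c.W, ∀ w ∈ c.W, ∀ a ∈ c.W, ∀ b ∈ c.W, c.sg a = c.sg x →
  c.sg b = c.sg x → c.E u a → c.E w b → c.cp (c.sg x) u ≠ c.cp (c.sg x) w →
  x ∈ c.J (c.sg x) (c.cp (c.sg x) u) → x ∈ c.J (c.sg x) (c.cp (c.sg x) w) → h u ≠ h w)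
include h3

lemma k23 {u w v1 v2 v3 : V} (hu : u ∈ c.W) (hw : w ∈ c.W) (ne : u ≠ w)
    (h1 : v1 ∈ c.W ∧ c.E u v1 ∧ c.E w v1) (h2 : v2 ∈ c.W ∧ c.E u v2 ∧ c.E w v2)
    (h4 : v3 ∈ c.W ∧ c.E u v3 ∧ c.E w v3) (n1 : v1 ≠ v2) (n2 : v1 ≠ v3) (n3 : v2 ≠ v3) :
    c.sg v3 = c.sg v1 ∧ c.cp (c.sg v1) u ≠ c.cp (c.sg v1) w ∧ h u ≠ h w := by
  have main : ∀ v1 v2 v3, (v1 ∈ c.W ∧ c.E u v1 ∧ c.E w v1) → (v2 ∈ c.W ∧ c.E u v2 ∧ c.E w v2) →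
      (v3 ∈ c.W ∧ c.E u v3 ∧ c.E w v3) → c.r v1 < c.r v2 → c.r v2 < c.r v3 → ∃ s, c.sg v1 = s ∧
        c.sg v2 = s ∧ c.sg v3 = s ∧ c.cp s u ≠ c.cp s w ∧ h u ≠ h w := by
    intro v1 v2 v3 h1 h2 h4 l1 l2
    obtain ⟨e1, e3⟩ := c.same_seg hu hw ne h1 h2 h4 l1 l2
    have sp : c.Sp v2 v1 v3 := ⟨e1, e3, .inl ⟨l1, l2⟩⟩
    have k := c.sep' hu hw h1.1 h2.1 h4.1 ne sp h1.2.1 h4.2.1 h2.2.2
    have du : u ∈ c.D (c.sg v2) := ⟨hu, c.sgne hu h2.2.1⟩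
    have dw : w ∈ c.D (c.sg v2) := ⟨hw, c.sgne hw h2.2.2⟩
    exact ⟨_, e1, rfl, e3, k, h3 v2 u hu w hw v2 h2.1 v2 h2.1 rfl rfl h2.2.1 h2.2.2 k
      (c.memJ h2.1 h1.1 h4.1 sp du du du rfl rfl h1.2.1 h4.2.1)
      (c.memJ h2.1 h1.1 h4.1 sp dw dw dw rfl rfl h1.2.2 h4.2.2)⟩
  have fin : (∃ s, c.sg v1 = s ∧ c.sg v3 = s ∧ c.cp s u ≠ c.cp s w ∧ h u ≠ h w) →
      c.sg v3 = c.sg v1 ∧ c.cp (c.sg v1) u ≠ c.cp (c.sg v1) w ∧ h u ≠ h w := by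
    rintro ⟨s, rfl, k⟩
    exact k
  apply fin
  rcases lt_or_gt_of_ne (c.hr.ne n1) with a | a <;> rcases lt_or_gt_of_ne (c.hr.ne n2) with b | b <;>
    rcases lt_or_gt_of_ne (c.hr.ne n3) with d | d
  · exact (main _ _ _ h1 h2 h4 a d).imp fun s k => ⟨k.1, k.2.2⟩
  · exact (main _ _ _ h1 h4 h2 b d).imp fun s k => ⟨k.1, k.2.1, k.2.2.2⟩
  · exact (main _ _ _ h1 h2 h4 a d).imp fun s k => ⟨k.1, k.2.2⟩
  · exact (main _ _ _ h4 h1 h2 b a).imp fun s k => ⟨k.2.1, k.1, k.2.2.2⟩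
  · exact (main _ _ _ h2 h1 h4 a b).imp fun s k => k.2
  · exact (main _ _ _ h4 h2 h1 d a).imp fun s k => ⟨k.2.2.1, k.1, k.2.2.2⟩
  · exact (main _ _ _ h2 h4 h1 d b).imp fun s k => ⟨k.2.2.1, k.2.1, k.2.2.2⟩
  · exact (main _ _ _ h4 h2 h1 d a).imp fun s k => ⟨k.2.2.1, k.1, k.2.2.2⟩

lemma core (h1 : ∀ u v, c.sg u = c.sg v → h u = h v)
    (h2 : ∀ u ∈ c.W, ∀ v ∈ c.W, c.E u v → St (h u) (h v))
    {o0 o1 o2 o3 o4 o5 o6 o7 u w l ρ : V} (m0 : o0 ∈ c.W) (m1 : o1 ∈ c.W) (m2 : o2 ∈ c.W)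
    (m3 : o3 ∈ c.W) (m4 : o4 ∈ c.W) (m5 : o5 ∈ c.W) (m6 : o6 ∈ c.W) (m7 : o7 ∈ c.W)
    (mu : u ∈ c.W) (mw : w ∈ c.W) (ml : l ∈ c.W) (mρ : ρ ∈ c.W)
    (e0 : c.E o0 o1) (e1 : c.E o1 o2) (e2 : c.E o2 o3) (e3 : c.E o3 o4) (e4 : c.E o4 o5)
    (e5 : c.E o5 o6) (e6 : c.E o6 o7) (e7 : c.E o7 o0) (ul : c.E u l) (uρ : c.E u ρ)
    (wl : c.E w l) (wρ : c.E w ρ) (l7 : c.E l o7) (ρ1 : c.E ρ o1)
    (es : c.sg ρ = c.sg l) (K : c.cp (c.sg l) u ≠ c.cp (c.sg l) w) (huw : h u ≠ h w)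
    (n1 : ∀ y ∈ [o1, o3, o5, o7], y ≠ u ∧ y ≠ w) (n2 : ∀ y ∈ [o0, o2, o4, o6], y ≠ l ∧ y ≠ ρ)
    (n3 : l ≠ ρ)
    (B : ∀ x ∈ [l, ρ], ∃ a ∈ [o0, o2, o4, o6], ∃ b ∈ [o0, o2, o4, o6], c.sg a = c.sg l ∧
      c.sg b = c.sg l ∧ c.r a < c.r x ∧ c.r x < c.r b)
    (S : (c.Sp u o1 o5 ∧ c.Sp w o3 o7) ∨ (c.Sp u o1 o3 ∧ c.Sp w o5 o7) ∨
      (c.Sp u o1 o7 ∧ c.Sp w o3 o5)) : h o4 = h o0 + 4 ∨ h o0 = h o4 + 4 := by
  have Es := c.hE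
  have du : u ∈ c.D (c.sg l) := ⟨mu, c.sgne mu ul⟩
  have dw : w ∈ c.D (c.sg l) := ⟨mw, c.sgne mw wl⟩
  have G1 : ∀ e ∈ c.W, ∀ y1 ∈ c.W, ∀ y2 ∈ c.W, c.E e y1 → c.E e y2 → c.sg y1 = c.sg u →
      c.sg y2 = c.sg w → c.sg e = c.sg l := fun e he y1 a1 y2 a2 b1 b2 d1 d2 => by_contra fun n =>
    K (((c.cp_seg a1 du d1).symm.trans (c.cp_edge ⟨he, n⟩ ⟨a1, d1 ▸ du.2⟩ b1).symm).trans
      ((c.cp_edge ⟨he, n⟩ ⟨a2, d2 ▸ dw.2⟩ b2).trans (c.cp_seg a2 dw d2)))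
  have G2 : ∀ y ∈ c.W, y ≠ u ∧ y ≠ w → (c.sg y = c.sg u ∨ c.sg y = c.sg w) → ∀ a ∈ c.W,
      ∀ b ∈ c.W, c.sg a = c.sg l → c.sg b = c.sg l → c.E y a → c.E y b → ∀ x ∈ [l, ρ], a ≠ x →
      b ≠ x → (c.r a < c.r x ↔ c.r b < c.r x) := by
    intro y hy ny sy a ha b hb sa sb ya yb x hx na nb
    have k : x ∈ c.W ∧ c.sg x = c.sg l ∧ c.E u x ∧ c.E w x := by
      simp only [List.mem_cons, List.not_mem_nil, or_false] at hx
      rcases hx with rfl | rfl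
      exacts [⟨ml, rfl, ul, wl⟩, ⟨mρ, es, uρ, wρ⟩]
    have n : ¬ Btw c.r a x b := fun t => by
      have sp : c.Sp x a b := ⟨sa.trans k.2.1.symm, sb.trans k.2.1.symm, t⟩
      rcases sy with sy | sy
      · exact c.sep' hy mu ha k.1 hb ny.1 sp ya yb k.2.2.1 (c.cp_seg hy (k.2.1 ▸ du) sy)
      · exact c.sep' hy mw ha k.1 hb ny.2 sp ya yb k.2.2.2 (c.cp_seg hy (k.2.1 ▸ dw) sy)
    exact ⟨fun p => by_contra fun q =>
        n (.inl ⟨p, lt_of_le_of_ne (not_lt.mp q) (c.hr.ne nb.symm)⟩),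
      fun p => by_contra fun q => n (.inr ⟨p, lt_of_le_of_ne (not_lt.mp q) (c.hr.ne na.symm)⟩)⟩
  have fin : ∀ x ∈ [l, ρ], ¬ ∀ a ∈ [o0, o2, o4, o6], c.sg a = c.sg l →
      (c.r a < c.r x ↔ c.r o0 < c.r x) := fun x hx t => by
    obtain ⟨a, ha, b, hb, sa, sb, p, q⟩ := B x hx
    exact lt_asymm q ((t b hb sb).mpr ((t a ha sa).mp p))
  have nx : ∀ x ∈ [l, ρ], ∀ y ∈ [o0, o2, o4, o6], y ≠ x := fun x hx y hy => by
    simp only [List.mem_cons, List.not_mem_nil, or_false] at hx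
    rcases hx with rfl | rfl
    exacts [(n2 y hy).1, (n2 y hy).2]
  have p1 := n1 o1 (by simp)
  have p3 := n1 o3 (by simp)
  have p5 := n1 o5 (by simp)
  have p7 := n1 o7 (by simp)
  have x0 := fun x hx => nx x hx o0 (by simp)
  have x2 := fun x hx => nx x hx o2 (by simp)
  have x4 := fun x hx => nx x hx o4 (by simp)
  have x6 := fun x hx => nx x hx o6 (by simp)
  have il : l ∈ [l, ρ] := by simp
  have iρ : ρ ∈ [l, ρ] := by simp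
  rcases S with ⟨s, t⟩ | ⟨s, t⟩ | ⟨s, t⟩
  · have a0 := G1 o0 m0 o1 m1 o7 m7 e0 (Es _ _ e7) s.1 t.2.1
    have a2 := G1 o2 m2 o1 m1 o3 m3 (Es _ _ e1) e2 s.1 t.1
    have a4 := G1 o4 m4 o5 m5 o3 m3 e4 (Es _ _ e3) s.2.1 t.1
    have a6 := G1 o6 m6 o5 m5 o7 m7 (Es _ _ e5) e6 s.2.1 t.2.1
    have b2 := G2 o1 m1 p1 (.inl s.1) o2 m2 o0 m0 a2 a0 e1 (Es _ _ e0) l il (x2 l il) (x0 l il)
    have b4 := G2 o3 m3 p3 (.inr t.1) o4 m4 o2 m2 a4 a2 e3 (Es _ _ e2) l il (x4 l il) (x2 l il)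
    have b6 := G2 o7 m7 p7 (.inr t.2.1) o6 m6 o0 m0 a6 a0 (Es _ _ e6) e7 l il (x6 l il) (x0 l il)
    refine absurd (fun a ha _ => ?_) (fin l il)
    simp only [List.mem_cons, List.not_mem_nil, or_false] at ha
    rcases ha with rfl | rfl | rfl | rfl
    exacts [Iff.rfl, b2, b4.trans b2, b6]
  · have a0 := G1 o0 m0 o1 m1 o7 m7 e0 (Es _ _ e7) s.1 t.2.1
    have k : ∀ x ∈ [l, ρ], ¬ (c.r o4 < c.r x ↔ c.r o0 < c.r x) := fun x hx q => by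
      refine fin x hx fun a ha sa => ?_
      simp only [List.mem_cons, List.not_mem_nil, or_false] at ha
      rcases ha with rfl | rfl | rfl | rfl
      exacts [Iff.rfl, G2 o1 m1 p1 (.inl s.1) _ m2 o0 m0 sa a0 e1 (Es _ _ e0) x hx (x2 x hx)
        (x0 x hx), q, G2 o7 m7 p7 (.inr t.2.1) _ m6 o0 m0 sa a0 (Es _ _ e6) e7 x hx (x6 x hx)
        (x0 x hx)]
    have k1 := k l il
    have k2 := k ρ iρ
    have b1 := G2 o7 m7 p7 (.inr t.2.1) o0 m0 l ml a0 rfl e7 (Es _ _ l7) ρ iρ (x0 ρ iρ) n3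
    have b2 := G2 o1 m1 p1 (.inl s.1) o0 m0 ρ mρ a0 es (Es _ _ e0) (Es _ _ ρ1) l il (x0 l il)
      n3.symm
    exfalso
    rcases lt_or_gt_of_ne (c.hr.ne n3) with q | q
    · have q1 : ¬ c.r o0 < c.r l := fun z => lt_asymm q (b2.mp z)
      exact k2 ⟨fun _ => b1.mpr q, fun _ => lt_trans (by_contra fun z =>
        k1 ⟨fun y => absurd y z, fun y => absurd y q1⟩) q⟩
    · have q1 : ¬ c.r o0 < c.r ρ := fun z => lt_asymm q (b1.mp z)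
      exact k1 ⟨fun _ => b2.mpr q, fun _ => lt_trans (by_contra fun z =>
        k2 ⟨fun y => absurd y z, fun y => absurd y q1⟩) q⟩
  · have suw : c.sg u ≠ c.sg w := fun e => huw (h1 _ _ e)
    have d0 : o0 ∈ c.D (c.sg u) := ⟨m0, s.1 ▸ c.sgne m0 e0⟩
    have dl : l ∈ c.D (c.sg u) := ⟨ml, (c.sgne mu ul).symm⟩
    have dρ : ρ ∈ c.D (c.sg u) := ⟨mρ, (c.sgne mu uρ).symm⟩
    have r0 := h3 u o0 m0 l ml o1 m1 u mu s.1 rfl e0 (Es _ _ ul)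
      (c.sep' m0 ml m1 mu m7 (x0 l il) s e0 (Es _ _ e7) (Es _ _ ul))
      (c.memJ mu m1 m7 s d0 d0 d0 rfl rfl e0 (Es _ _ e7))
      (c.memJ mu m1 m7 s dl dρ dl (c.cp_seg ml dρ es.symm) rfl ρ1 l7)
    have d4 : o4 ∈ c.D (c.sg w) := ⟨m4, t.2.1 ▸ c.sgne m4 e4⟩
    have fl : l ∈ c.D (c.sg w) := ⟨ml, (c.sgne mw wl).symm⟩
    have fρ : ρ ∈ c.D (c.sg w) := ⟨mρ, (c.sgne mw wρ).symm⟩
    have f1 : o1 ∈ c.D (c.sg w) := ⟨m1, s.1 ▸ suw⟩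
    have f7 : o7 ∈ c.D (c.sg w) := ⟨m7, s.2.1 ▸ suw⟩
    have f2 : o2 ∈ c.D (c.sg w) := ⟨m2, t.1 ▸ c.sgne m2 e2⟩
    have f6 : o6 ∈ c.D (c.sg w) := ⟨m6, t.2.1 ▸ c.sgne m6 (Es _ _ e5)⟩
    have r4 := h3 w o4 m4 l ml o3 m3 w mw t.1 rfl (Es _ _ e3) (Es _ _ wl)
      (c.sep' m4 ml m3 mw m5 (x4 l il) t (Es _ _ e3) e4 (Es _ _ wl))
      (c.memJ mw m3 m5 t d4 d4 d4 rfl rfl (Es _ _ e3) e4)
      (c.memJ mw m3 m5 t fl f2 f6 ((c.cp_seg ml fρ es.symm).trans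
        ((c.cp_edge fρ f1 ρ1).trans (c.cp_edge f1 f2 e1)))
        ((c.cp_edge fl f7 l7).trans (c.cp_edge f7 f6 (Es _ _ e6))) e2 (Es _ _ e5))
    have := h1 _ _ s.1
    have := h1 _ _ t.1
    have := h2 _ m0 _ m1 e0
    have := h2 _ m3 _ m4 e3
    have := h2 _ mu _ ml ul
    have := h2 _ mw _ ml wl
    unfold St at *
    omega

omit h3 [Finite V] in
lemma ruleB {g : Fin 13 → V} (gi : Function.Injective g)
    (ge : ∀ e ∈ GE, c.E (g e.1) (g e.2))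
    (z1 : Conn c.E {v | ∀ i, v = g i → i = 0} (g 0) c.z0)
    (z2 : Conn c.E {v | ∀ i, v = g i → 2 ≤ i ∧ i ≤ 6} (g 4) c.z0) (x : Fin 13) (hx : 8 ≤ x)
    (k : Conn c.H {v | ∀ i, v = g i → 8 ≤ i} (g x) c.z0) : False := by
  let S : (Fin 13 → Prop) → Set V := fun p => {v | ∃ i, p i ∧ v = g i}
  let X : Set V := {v | ∀ i, v ≠ g i}
  have dj : ∀ p q : Fin 13 → Prop, (∀ i, p i → ¬ q i) → Disjoint (S p) (S q) := fun p q n =>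
    disjoint_left.mpr fun v ⟨i, a, b⟩ ⟨j, a', b'⟩ => n i a (gi (b.symm.trans b') ▸ a')
  have dx : ∀ p : Fin 13 → Prop, Disjoint (S p) X := fun p =>
    disjoint_left.mpr fun v ⟨i, _, b⟩ t => t i b
  have ed : ∀ (p q : Fin 13 → Prop) (i j : Fin 13), ((i, j) ∈ GE ∨ (j, i) ∈ GE) → (p i ∨ q i) →
      (p j ∨ q j) → Conn c.H (S p ∪ S q) (g i) (g j) := fun p q i j e a b =>
    .single (a.imp (fun a => ⟨i, a, rfl⟩) fun a => ⟨i, a, rfl⟩)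
      (b.imp (fun b => ⟨j, b, rfl⟩) fun b => ⟨j, b, rfl⟩)
      (.inl (e.elim (ge _) fun e => c.hE _ _ (ge _ e)))
  have sub : ∀ p : Fin 13 → Prop, {v | ∀ i, v = g i → p i} ⊆ X ∪ S p := fun p v hv => by
    by_cases t : ∃ i, v = g i
    · obtain ⟨i, t⟩ := t
      exact .inr ⟨i, hv i t, t⟩
    · exact .inl fun i e => t ⟨i, e⟩
  have inn : ∀ (p : Fin 13 → Prop) (y : Fin 13), 8 ≤ y →
      Conn c.H (S p ∪ S fun i => 8 ≤ i) (g y) (g 8) := fun p y hy => by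
    have e := fun i j a b d => ed p (fun i => 8 ≤ i) i j a (.inr b) (.inr d)
    have : y = 8 ∨ y = 9 ∨ y = 10 ∨ y = 11 ∨ y = 12 := by omega
    rcases this with rfl | rfl | rfl | rfl | rfl
    · exact .refl (.inr ⟨8, le_rfl, rfl⟩)
    · exact (e 9 10 (by decide) (by decide) (by decide)).trans
        (e 10 8 (by decide) (by decide) (by decide))
    all_goals exact e _ _ (by decide) (by decide) (by decide)
  refine c.hK.six (S (· = 7)) (S (· = 1)) X (S (· = 0)) (S fun i => 2 ≤ i ∧ i ≤ 6)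
    (S fun i => 8 ≤ i) (g 7) (g 1) c.z0 (g 0) (g 4) (g 8) (dj _ _ (by decide)) (dx _) (dx _)
    (dj _ _ (by decide)) (dj _ _ (by decide)) (dj _ _ (by decide)) (fun v a b => ?_)
    (ed _ _ _ _ (by decide) (by decide) (by decide))
    (((ed _ _ 7 6 (by decide) (by decide) (by decide)).trans
      (ed _ _ 6 5 (by decide) (by decide) (by decide))).trans
      (ed _ _ 5 4 (by decide) (by decide) (by decide)))
    ((ed _ _ 7 10 (by decide) (by decide) (by decide)).trans (inn _ 10 (by decide)))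
    (ed _ _ _ _ (by decide) (by decide) (by decide))
    (((ed _ _ 1 2 (by decide) (by decide) (by decide)).trans
      (ed _ _ 2 3 (by decide) (by decide) (by decide))).trans
      (ed _ _ 3 4 (by decide) (by decide) (by decide)))
    ((ed _ _ 1 12 (by decide) (by decide) (by decide)).trans (inn _ 12 (by decide)))
    ((z1.mono' (fun _ _ => .inl) (sub _)).symm c.Hs)
    ((z2.mono' (fun _ _ => .inl) (sub _)).symm c.Hs)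
    (((k.mono (sub _)).symm c.Hs).trans ((inn (fun _ => False) x hx).mono ?_))
  · have b' : ∃ j, v = g j ∧ j ≠ 7 ∧ j ≠ 1 := by
      rcases b with ⟨j, b, e⟩ | ⟨j, b, e⟩ | ⟨j, b, e⟩ <;> exact ⟨j, e, by omega⟩
    obtain ⟨j, e, b'⟩ := b'
    rcases a with ⟨i, rfl, a⟩ | ⟨i, rfl, a⟩ | a
    exacts [b'.1 (gi (e.symm.trans a)), b'.2 (gi (e.symm.trans a)), a j e]
  · rintro v (⟨_, t, _⟩ | t)
    exacts [t.elim, .inr t]

/-- The height of a gear whose bottom and whose upper arc are joined to the outside is four. -/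
theorem gear (h1 : ∀ u v, c.sg u = c.sg v → h u = h v)
    (h2 : ∀ u ∈ c.W, ∀ v ∈ c.W, c.E u v → St (h u) (h v))
    {g : Fin 13 → V} (gi : Function.Injective g) (gW : ∀ i, g i ∈ c.W)
    (ge : ∀ e ∈ GE, c.E (g e.1) (g e.2))
    (z1 : Conn c.E {v | ∀ i, v = g i → i = 0} (g 0) c.z0)
    (z2 : Conn c.E {v | ∀ i, v = g i → 2 ≤ i ∧ i ≤ 6} (g 4) c.z0) :
    h (g 4) = h (g 0) + 4 ∨ h (g 0) = h (g 4) + 4 := by
  have E := fun i j (e : (i, j) ∈ GE) => ge (i, j) e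
  have B : ∀ x : Fin 13, 8 ≤ x → ∃ a b : Fin 13, a < 8 ∧ b < 8 ∧ c.sg (g a) = c.sg (g x) ∧
      c.sg (g b) = c.sg (g x) ∧ c.r (g a) < c.r (g x) ∧ c.r (g x) < c.r (g b) := by
    intro x hx
    have out : ∀ U : Set V, (∀ y ∈ U, ∀ i, y = g i → 8 ≤ i) →
        ¬ Conn c.H (U ∪ c.Wᶜ) (g x) c.z0 := fun U hU k =>
      c.ruleB gi ge z1 z2 x hx (k.mono fun y hy => hy.elim (hU y)
        fun n i e => absurd (e ▸ gW i) n)
    have ne : ∀ a : Fin 13, a < 8 → c.r (g a) ≠ c.r (g x) := fun a ha =>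
      c.hr.ne (gi.ne (by omega))
    obtain ⟨a, a1, a2, a3⟩ : ∃ a : Fin 13, a < 8 ∧ c.sg (g a) = c.sg (g x) ∧
        c.r (g a) < c.r (g x) := by_contra fun n =>
      out {y | c.sg y = c.sg (g x) ∧ c.r y ≤ c.r (g x)} (by
        rintro _ ⟨p, q⟩ i rfl
        exact by_contra fun t => n ⟨i, not_le.mp t, p, lt_of_le_of_ne q (ne i (not_le.mp t))⟩)
        (c.down _ (gW x) _ fun y _ p q => ⟨p, q⟩)
    obtain ⟨b, b1, b2, b3⟩ : ∃ a : Fin 13, a < 8 ∧ c.sg (g a) = c.sg (g x) ∧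
        c.r (g x) < c.r (g a) := by_contra fun n =>
      out {y | c.sg y = c.sg (g x) ∧ c.r (g x) ≤ c.r y} (by
        rintro _ ⟨p, q⟩ i rfl
        exact by_contra fun t => n ⟨i, not_le.mp t, p, lt_of_le_of_ne q (ne i (not_le.mp t)).symm⟩)
        (c.up _ (gW x) _ fun y _ p q => ⟨p, q⟩)
    exact ⟨a, b, a1, b1, a2, b2, a3, b3⟩
  have ty : ∀ i, c.cl (g i) = xor (c.cl (g 0)) (decide (i ∈ [1, 3, 5, 7, 8, 9])) := by
    have t := fun i j e => c.hcl _ _ (E i j e)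
    have f : ∀ x y z : Bool, x ≠ z → z ≠ y → y = x := by decide
    have f' : ∀ x y : Bool, x ≠ y → y = xor x true := by decide
    have c1 := f' _ _ (t 0 1 (by decide))
    have c2 := f _ _ _ (t 0 1 (by decide)) (t 1 2 (by decide))
    have c3 := f _ _ _ (t 1 2 (by decide)) (t 2 3 (by decide))
    have c4 := f _ _ _ (t 2 3 (by decide)) (t 3 4 (by decide))
    have c5 := f _ _ _ (t 3 4 (by decide)) (t 4 5 (by decide))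
    have c6 := f _ _ _ (t 4 5 (by decide)) (t 5 6 (by decide))
    have c7 := f _ _ _ (t 5 6 (by decide)) (t 6 7 (by decide))
    have c12 := f _ _ _ (t 0 1 (by decide)) (t 12 1 (by decide)).symm
    have c8 := f _ _ _ (t 12 1 (by decide)).symm (t 8 12 (by decide)).symm
    have c9 := f _ _ _ (t 12 1 (by decide)).symm (t 9 12 (by decide)).symm
    have c10 := f _ _ _ (t 8 12 (by decide)).symm (t 8 10 (by decide))
    have c11 := f _ _ _ (t 8 12 (by decide)).symm (t 8 11 (by decide))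
    have c0 := (Bool.xor_false (c.cl (g 0))).symm
    intro i
    fin_cases i
    exacts [c0, c1, c2.trans c0, c3.trans c1, c4.trans (c2.trans c0), c5.trans (c3.trans c1),
      c6.trans (c4.trans (c2.trans c0)), c7.trans (c5.trans (c3.trans c1)), c8.trans c1,
      c9.trans c1, c10.trans (c12.trans c0), c11.trans (c12.trans c0), c12.trans c0]
  have tp : ∀ a x : Fin 13, c.sg (g a) = c.sg (g x) →
      (a ∈ [1, 3, 5, 7, 8, 9] ↔ x ∈ [1, 3, 5, 7, 8, 9]) := fun a x e => by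
    have := c.sgcl _ (gW a) _ e
    rw [ty a, ty x] at this
    simpa only [Bool.xor_right_inj, decide_eq_decide] using this
  obtain ⟨es, K, huw⟩ := c.k23 h3 (gW 8) (gW 9) (gi.ne (by decide))
    ⟨gW 10, E 8 10 (by decide), E 9 10 (by decide)⟩ ⟨gW 11, E 8 11 (by decide), E 9 11 (by decide)⟩
    ⟨gW 12, E 8 12 (by decide), E 9 12 (by decide)⟩ (gi.ne (by decide)) (gi.ne (by decide))
    (gi.ne (by decide))
  let y : Fin 4 → Fin 13 := ![1, 3, 5, 7]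
  have od : ∀ x : Fin 13, x = 8 ∨ x = 9 → ∃ i j, i ≠ j ∧ c.Sp (g x) (g (y i)) (g (y j)) := by
    intro x hx
    obtain ⟨a, b, a1, b1, a2, b2, a3, b3⟩ := B x (by omega)
    have q : ∀ a : Fin 13, a < 8 → ∀ x : Fin 13, x = 8 ∨ x = 9 →
      (a ∈ [1, 3, 5, 7, 8, 9] ↔ x ∈ [1, 3, 5, 7, 8, 9]) → ∃ i, a = y i := by decide
    obtain ⟨i, rfl⟩ := q a a1 x hx (tp a x a2)
    obtain ⟨j, rfl⟩ := q b b1 x hx (tp b x b2)
    exact ⟨i, j, fun e => lt_asymm a3 (e ▸ b3), a2, b2, .inl ⟨a3, b3⟩⟩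
  have ev : ∀ x ∈ [g 10, g 12], ∃ a ∈ [g 0, g 2, g 4, g 6], ∃ b ∈ [g 0, g 2, g 4, g 6],
      c.sg a = c.sg (g 10) ∧ c.sg b = c.sg (g 10) ∧ c.r a < c.r x ∧ c.r x < c.r b := by
    have q : ∀ a : Fin 13, a < 8 → ∀ x : Fin 13, x = 10 ∨ x = 12 →
      (a ∈ [1, 3, 5, 7, 8, 9] ↔ x ∈ [1, 3, 5, 7, 8, 9]) → a ∈ [0, 2, 4, 6] := by decide
    have t : ∀ x : Fin 13, x = 10 ∨ x = 12 → c.sg (g x) = c.sg (g 10) →
        ∃ a ∈ [g 0, g 2, g 4, g 6], ∃ b ∈ [g 0, g 2, g 4, g 6], c.sg a = c.sg (g 10) ∧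
          c.sg b = c.sg (g 10) ∧ c.r a < c.r (g x) ∧ c.r (g x) < c.r b := fun x hx e => by
      obtain ⟨a, b, a1, b1, a2, b2, a3, b3⟩ := B x (by omega)
      exact ⟨_, List.mem_map_of_mem (f := g) (q a a1 x hx (tp a x a2)), _,
        List.mem_map_of_mem (f := g) (q b b1 x hx (tp b x b2)), a2.trans e, b2.trans e, a3, b3⟩
    intro x hx
    simp only [List.mem_cons, List.not_mem_nil, or_false] at hx
    rcases hx with rfl | rfl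
    exacts [t 10 (.inl rfl) rfl, t 12 (.inr rfl) es]
  obtain ⟨i, j, n1, s⟩ := od 8 (.inl rfl)
  obtain ⟨k, l, n2, t⟩ := od 9 (.inr rfl)
  have nn : ∀ i k, c.sg (g (y i)) = c.sg (g 8) → c.sg (g (y k)) = c.sg (g 9) → i ≠ k :=
    fun i k a b e => huw (h1 _ _ (a.symm.trans (e ▸ b)))
  have tr : ∀ {x : V} {i j i' j' : Fin 4}, s(i, j) = s(i', j') → c.Sp x (g (y i)) (g (y j)) →
      c.Sp x (g (y i')) (g (y j')) := fun e p => by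
    rcases Sym2.eq_iff.mp e with ⟨rfl, rfl⟩ | ⟨rfl, rfl⟩
    exacts [p, ⟨p.2.1, p.1, p.2.2.symm⟩]
  have n3 : ∀ p q : Fin 13, 8 ≤ p → 8 ≤ q → ∀ L : List (Fin 13), (∀ i ∈ L, i < 8) →
      ∀ v ∈ L.map g, v ≠ g p ∧ v ≠ g q := fun p q hp hq L hL v hv => by
    obtain ⟨i, hi, rfl⟩ := List.mem_map.mp hv
    have := hL i hi
    exact ⟨gi.ne (by omega), gi.ne (by omega)⟩
  have fin := fun (p q : Fin 13) hp hq a1 a2 a3 a4 K huw => c.core h3 h1 h2 (gW 0) (gW 1) (gW 2)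
    (gW 3) (gW 4) (gW 5) (gW 6) (gW 7) (gW p) (gW q) (gW 10) (gW 12) (E 0 1 (by decide))
    (E 1 2 (by decide)) (E 2 3 (by decide)) (E 3 4 (by decide)) (E 4 5 (by decide))
    (E 5 6 (by decide)) (E 6 7 (by decide)) (E 7 0 (by decide)) a1 a2 a3 a4 (E 10 7 (by decide))
    (E 12 1 (by decide)) es K huw (n3 p q hp hq [1, 3, 5, 7] (by decide))
    (n3 10 12 (by decide) (by decide) [0, 2, 4, 6] (by decide)) (gi.ne (by decide)) ev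
  rcases pairs i j k l n1 n2 (nn _ _ s.1 t.1) (nn _ _ s.1 t.2.1) (nn _ _ s.2.1 t.1)
    (nn _ _ s.2.1 t.2.1) with p | p
  · refine fin 8 9 (by decide) (by decide) (E _ _ (by decide)) (E _ _ (by decide))
      (E _ _ (by decide)) (E _ _ (by decide)) K huw ?_
    rcases p with ⟨p, q⟩ | ⟨p, q⟩ | ⟨p, q⟩
    exacts [.inl ⟨(tr p s :), (tr q t :)⟩, .inr (.inl ⟨(tr p s :), (tr q t :)⟩),
      .inr (.inr ⟨(tr p s :), (tr q t :)⟩)]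
  · refine fin 9 8 (by decide) (by decide) (E _ _ (by decide)) (E _ _ (by decide))
      (E _ _ (by decide)) (E _ _ (by decide)) K.symm huw.symm ?_
    rcases p with ⟨p, q⟩ | ⟨p, q⟩ | ⟨p, q⟩
    exacts [.inl ⟨(tr p t :), (tr q s :)⟩, .inr (.inl ⟨(tr p t :), (tr q s :)⟩),
      .inr (.inr ⟨(tr p t :), (tr q s :)⟩)]

end Ctx

end Pool.Agent.Lib.MP_c1785c_lc.S3
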