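import Pool.Agent.Lib.MP_c1785c_lc.S3.NetNo
import Pool.Agent.Lib.MP_c1785c_lc.Hard

/-!
Three-colourability expressed by the subcubic grid, and the whole reduction.
-/

set_option autoImplicit false

namespace Pool.Agent.Lib.MP_c1785c_lc.S3

open Pool.Agent.Shared.CookLevin Pool.Agent.Shared.PolyTime

def grid3 (n : ℕ) (Es : List (ℕ × ℕ)) : List (Dsc × Dsc) :=
  net (25 * n) (5 * (Es.length + 1)) (lab n Es)

section

variable {n : ℕ} {Es : List (ℕ × ℕ)}

theorem grid_yes3 (hE : ∀ e ∈ Es, e.1 < e.2 ∧ e.2 < n) (c : ℕ → Fin 3)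
    (hc : ∀ e ∈ Es, c e.1 ≠ c e.2) (sh : Bool) : (inst (grid3 n Es)).CliquePlanar sh := by
  have T := fun J ρ (h : ρ ≤ Es.length) => tc_ok (kind n Es J ρ) (kind_lt J ρ) (c (J % n))
    (c (Es.getD (ρ - 1) (0, 0)).1) (fun k => by
      unfold kind at k
      split_ifs at k with a b d <;> first | omega | exact d ▸ (hc _ (getD_mem a h)).symm)
  refine net_yes3 lab_lt (fun P Q => tc (kind n Es (P / 5) (Q / 5)) (c (P / 5 % n))
    (c (Es.getD (Q / 5 - 1) (0, 0)).1) (P % 5) (Q % 5)) ?_ sh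
  rintro ⟨P, Q, d, τ⟩ m
  obtain ⟨rfl, ⟨rfl, h1, h2⟩ | ⟨rfl, h1, h2⟩⟩ := mem_links.mp m
  · simp only [nx, if_true, lab]
    have t := T (P / 5) (Q / 5) (by omega)
    by_cases p : P % 5 < 4
    · rw [show (P + 1) / 5 = P / 5 by omega, show (P + 1) % 5 = P % 5 + 1 by omega]
      exact (t.2.2.2.2.2 _ (by omega) _ (by omega)).1 p
    rw [show (P + 1) / 5 = P / 5 + 1 by omega, show (P + 1) % 5 = 0 by omega,
      show P % 5 = 4 by omega, (tlab_out _ (kind_lt _ _) _ (by omega)).1]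
    split_ifs with a
    · refine ⟨fun _ => ?_, by simp⟩
      obtain ⟨a, b⟩ := a
      have q0 : Q / 5 ≠ 0 := fun e => by simp [kind, e] at b
      have := hE _ (getD_mem q0 (by omega))
      have k : (Es.getD (Q / 5 - 1) (0, 0)).1 ≤ P / 5 % n ∧
          P / 5 % n < (Es.getD (Q / 5 - 1) (0, 0)).2 ∧ (kind n Es (P / 5) (Q / 5) = 2 →
          P / 5 % n = (Es.getD (Q / 5 - 1) (0, 0)).1) := by
        unfold kind at b ⊢
        split_ifs at b ⊢ <;> omega
      have e : (P / 5 + 1) % n = P / 5 % n + 1 := by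
        rw [← Nat.mod_add_mod, Nat.mod_eq_of_lt (by omega)]
      rw [a, (T (P / 5 + 1) (Q / 5) (by omega)).2.2.1 (by
        unfold kind
        rw [e]
        split_ifs <;> omega)]
      exact b.elim (fun b => (t.2.2.2.1 b).trans (congrArg c (k.2.2 b))) t.2.2.2.2.1
    · exact ⟨by simp, by simp⟩
  · simp only [nx, OfNat.ofNat_ne_one, if_false, lab]
    have t := T (P / 5) (Q / 5) (by omega)
    by_cases p : Q % 5 < 4
    · rw [show (Q + 1) / 5 = Q / 5 by omega, show (Q + 1) % 5 = Q % 5 + 1 by omega]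
      exact (t.2.2.2.2.2 _ (by omega) _ (by omega)).2 p
    rw [show (Q + 1) / 5 = Q / 5 + 1 by omega, show (Q + 1) % 5 = 0 by omega,
      show Q % 5 = 4 by omega, (tlab_out _ (kind_lt _ _) _ (by omega)).2]
    split_ifs with a
    · refine ⟨fun _ => ?_, by simp⟩
      rw [a.1, t.2.1, (T (P / 5) (Q / 5 + 1) (by omega)).1]
    · exact ⟨by simp, by simp⟩

theorem grid_no3 (hn : 0 < n) (hE : ∀ e ∈ Es, e.1 < e.2 ∧ e.2 < n) {sh : Bool}
    (h : (inst (grid3 n Es)).CliquePlanar sh) : ∃ c : ℕ → Fin 3, ∀ e ∈ Es, c e.1 ≠ c e.2 := by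
  obtain ⟨i, i5, g, hg⟩ := net_no3 lab_lt h (5 * n) (by omega) (by omega)
  have dv : ∀ x, 5 * (n * i) ≤ x → x < 5 * (n * i) + 5 * n → x / (5 * n) = i := fun x a b =>
    Nat.div_eq_of_lt_le (by linarith) (by linarith)
  have ni : n * i ≤ n * 4 := Nat.mul_le_mul_left _ (by omega)
  have H : ∀ j < n, ∀ ρ, ρ ≠ 0 → ρ ≤ Es.length → ∀ p < 5, ∀ q < 5,
      (5 * j + p + 1 < 5 * n → Ok (tlab (kind n Es j ρ) p q 1)
        (g (5 * (n * i + j) + p) (5 * ρ + q)) (g (5 * (n * i + j) + p + 1) (5 * ρ + q))) ∧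
      (5 * ρ + q + 1 < 5 * (Es.length + 1) → Ok (tlab (kind n Es j ρ) p q 2)
        (g (5 * (n * i + j) + p) (5 * ρ + q)) (g (5 * (n * i + j) + p) (5 * ρ + q + 1))) := by
    intro j hj ρ r0 r1 p hp q hq
    have e : ∀ d, lab n Es (5 * (n * i + j) + p) (5 * ρ + q) d = tlab (kind n Es j ρ) p q d := by
      intro d
      rw [lab, show (5 * (n * i + j) + p) / 5 = n * i + j by omega,
        show (5 * (n * i + j) + p) % 5 = p by omega, show (5 * ρ + q) / 5 = ρ by omega,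
        show (5 * ρ + q) % 5 = q by omega]
      simp only [kind, Nat.mul_add_mod]
    constructor <;> intro k
    · exact hg (_, _, 1, _) (mem_links.mpr ⟨(e 1).symm, .inl ⟨rfl, by omega, by omega⟩⟩)
        (show 5 * ρ + q ≠ 0 by omega) (dv _ (by omega) (by omega))
        (dv (5 * (n * i + j) + p + 1) (by omega) (by omega))
    · exact hg (_, _, 2, _) (mem_links.mpr ⟨(e 2).symm, .inr ⟨rfl, by omega, by omega⟩⟩)
        (show 5 * ρ + q ≠ 0 by omega) (dv _ (by omega) (by omega))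
        (dv (5 * (n * i + j) + p) (by omega) (by omega))
  have k0 : ∀ j ρ, ρ ≠ 0 → kind n Es j ρ ≠ 0 := fun j ρ h => by
    unfold kind
    split_ifs <;> omega
  have S := fun j (hj : j < n) ρ (r0 : ρ ≠ 0) (r1 : ρ ≤ Es.length) =>
    tile_sound (kind_lt j ρ) (k0 j ρ r0) (fun p q => g (5 * (n * i + j) + p) (5 * ρ + q))
      (fun p hp q hq => (H j hj ρ r0 r1 p (by omega) q hq).1 (by omega))
      (fun p hp q hq => (H j hj ρ r0 r1 p hp q (by omega)).2 (by omega))
  have vert : ∀ j < n, ∀ ρ, ρ + 1 ≤ Es.length →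
      g (5 * (n * i + j) + 2) (5 * (ρ + 1)) = g (5 * (n * i + j) + 2) 5 := by
    intro j hj ρ
    induction ρ with
    | zero => exact fun _ => rfl
    | succ ρ ih =>
      intro h
      have a := ((H j hj (ρ + 1) (by omega) (by omega) 2 (by decide) 4 (by decide)).2
        (by omega)).1 (by
          rw [(tlab_out _ (kind_lt _ _) 2 (by decide)).2, if_pos ⟨rfl, k0 _ _ (by omega)⟩])
      rw [← ih (by omega), show 5 * (ρ + 1 + 1) = 5 * (ρ + 1) + 4 + 1 by ring, ← a]
      exact (S j hj (ρ + 1) (by omega) (by omega)).1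
  refine ⟨fun j => g (5 * (n * i + j) + 2) 5, fun e he => ?_⟩
  obtain ⟨ρ, hρ, rfl⟩ := List.getElem_of_mem he
  obtain ⟨e1, e2⟩ := hE _ he
  have ge : Es.getD (ρ + 1 - 1) (0, 0) = Es[ρ] := List.getD_eq_getElem _ _ hρ
  have hor : ∀ j, Es[ρ].1 ≤ j → j < Es[ρ].2 →
      g (5 * (n * i + (j + 1))) (5 * (ρ + 1) + 2) = g (5 * (n * i + Es[ρ].1) + 2) 5 := by
    intro j h1
    have step : ∀ j, j < Es[ρ].2 → (kind n Es j (ρ + 1) = 2 ∨ kind n Es j (ρ + 1) = 3) →
        g (5 * (n * i + (j + 1))) (5 * (ρ + 1) + 2) =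
          g (5 * (n * i + j) + 4) (5 * (ρ + 1) + 2) := fun j hj k =>
      (((H j (by omega) (ρ + 1) (by omega) (by omega) 4 (by decide) 2 (by decide)).1
        (by omega)).1 (by rw [(tlab_out _ (kind_lt _ _) 2 (by decide)).1, if_pos ⟨rfl, k⟩])).symm
    induction j, h1 using Nat.le_induction with
    | base =>
      intro h
      have k : kind n Es Es[ρ].1 (ρ + 1) = 2 := by
        rw [kind, ge, Nat.mod_eq_of_lt (by omega), if_neg (by omega), if_pos rfl]
      rw [step _ h (.inl k), ← vert _ (by omega) ρ hρ]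
      exact (S _ (by omega) (ρ + 1) (by omega) hρ).2.1 k
    | succ j h1 ih =>
      intro h
      have k : kind n Es (j + 1) (ρ + 1) = 3 := by
        rw [kind, ge, Nat.mod_eq_of_lt (by omega), if_neg (by omega), if_neg (by omega),
          if_neg (by omega), if_pos (by omega), if_pos h]
      rw [step _ h (.inr k), ← ih (by omega)]
      exact (S _ (by omega) (ρ + 1) (by omega) hρ).2.2.1 k
  have k : kind n Es Es[ρ].2 (ρ + 1) = 4 := by
    rw [kind, ge, Nat.mod_eq_of_lt e2, if_neg (by omega), if_neg (by omega), if_pos rfl]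
  have a := (S _ e2 (ρ + 1) (by omega) hρ).2.2.2 k
  have b := hor (Es[ρ].2 - 1) (by omega) (by omega)
  rw [Nat.sub_add_cancel (by omega)] at b
  beta_reduce
  rw [← b, ← vert _ e2 ρ hρ]
  exact a

end

/-- the subcubic instance attached to a formula -/
def red3 (φ : E3 ℕ) : Inst := inst (grid3 (2 + 12 * φ.length) (cg φ))

section pt

variable {α : Type} [N487b59b3 α]

@[fun_prop] theorem emb3_pt {l : α → Dsc} {k : α → ℕ} (hl : PT l) (hk : PT k) :
    PT fun a => emb3 (l a) (k a) := by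
  unfold emb3 nx
  fun_prop

@[fun_prop] theorem ed3_pt {d τ : α → ℕ} (hd : PT d) (hτ : PT τ) :
    PT fun a => ed3 (d a) (τ a) := by
  unfold ed3 sA sB
  fun_prop

theorem grid3_pt {n : α → ℕ} {Es : α → List (ℕ × ℕ)} (hn : PT n) (bn : PB n) (hE : PT Es) :
    PT fun a => grid3 (n a) (Es a) := by
  have h : PT fun a => links (25 * n a) (5 * ((Es a).length + 1)) (lab (n a) (Es a)) := by
    unfold links nx
    fun_prop
  have h' : PT fun a => nodes (25 * n a) (5 * ((Es a).length + 1)) := by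
    unfold nodes
    fun_prop
  unfold grid3 net edges3
  fun_prop

theorem red3_pt {φ : α → E3 ℕ} (h : PT φ) : PT fun a => red3 (φ a) :=
  inst_pt (grid3_pt (by fun_prop) (by fun_prop) (by unfold cg gad lit; fun_prop))

end pt

theorem hard3 {k : ℕ} (hk : 2 ≤ k) {L : List Bool → Bool} (hL : L ∈ N68a2faeb.NP) :
    ∃ f : List Bool → Inst, PT f ∧ ∀ x, (f x).Valid k ∧
      (∀ v, {u | (f x).graph.Adj v u ∧ (f x).cl v ≠ (f x).cl u}.ncard ≤ 3) ∧
      ∀ sh, (L x = true ↔ (f x).CliquePlanar sh) := by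
  obtain ⟨φ, hφ, h⟩ := cook_levin_e3 hL
  refine ⟨fun x => red3 (φ x), red3_pt hφ, fun x => ⟨valid_inst (net_par3 lab_lt) hk,
    inst_deg (net_par3 lab_lt) (net_deg lab_lt), fun sh => ?_⟩⟩
  rw [(h x).2.2, cg_iff (h x).2.1]
  exact ⟨fun ⟨c, hc⟩ => grid_yes3 (cg_lt (h x).2.1) c hc sh,
    grid_no3 (by omega) (cg_lt (h x).2.1)⟩

end Pool.Agent.Lib.MP_c1785c_lc.S3
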