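import Pool.Agent.Lib.MP_c1785c_lc.S3.Gear
import Pool.Agent.Lib.MP_c1785c_lc.Ins

/-!
Heights for a clique-planar instance with two clusters, and the degree bound.
-/

set_option autoImplicit false

namespace Pool.Agent.Lib.MP_c1785c_lc.S3

variable {Es : List (Dsc × Dsc)}

lemma conn_io {U : Set Dsc} {z y : Fin (inst Es).1.length}
    (k : Conn (Ed Es) U (io Es z) (io Es y)) :
    Conn (fun u v => Ed Es (io Es u) (io Es v)) {v | io Es v ∈ U} z y := by
  have : ∀ b, Conn (Ed Es) U (io Es z) b → ∀ y, io Es y = b →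
      Conn (fun u v => Ed Es (io Es u) (io Es v)) {v | io Es v ∈ U} z y := by
    rintro b ⟨hz, k⟩
    induction k with
    | refl => exact fun y e => (io_inj e).symm ▸ .refl hz
    | tail k h ih =>
      rintro y rfl
      obtain ⟨x, rfl⟩ := io_surj (mem_verts.mpr ⟨_, h.1.symm⟩)
      exact (ih x rfl).trans (.single (ih x rfl).right h.2 h.1)
  exact this _ k y rfl

variable (hp : ∀ u v, Ed Es u v → par u.2.2.2 ≠ par v.2.2.2)
include hp

theorem inst_deg (hd : ∀ v, ∃ L : List Dsc, L.length ≤ 3 ∧ ∀ u, Ed Es v u → u ∈ L)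
    (v : Fin (inst Es).1.length) :
    {u | (inst Es).graph.Adj v u ∧ (inst Es).cl v ≠ (inst Es).cl u}.ncard ≤ 3 := by
  obtain ⟨L, h1, h2⟩ := hd (io Es v)
  refine le_trans (Set.ncard_le_ncard_of_injOn (t := (L.toFinset : Set Dsc)) (io Es)
    (fun u hu => ?_) io_inj.injOn) ?_
  · exact List.mem_toFinset.mpr (h2 _ ((inter_iff hp v u).mp hu))
  · rw [Set.ncard_coe_finset]
    exact (List.toFinset_card_le L).trans h1

theorem inst_no3 {sh : Bool} (h : (inst Es).CliquePlanar sh) (ix : Dsc → ℕ) (z0 : Dsc)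
    (h0 : z0 ∈ verts Es)
    (hZ : ∀ i, 1 ≤ i → ∀ v ∈ verts Es, ix v ≠ i → Conn (Ed Es) {y | ix y ≠ i} v z0) :
    ∃ i, 1 ≤ i ∧ i ≤ 5 ∧ ∃ H : Dsc → ℤ,
      (∀ u v, ix u = i → ix v = i → Ed Es u v → St (H u) (H v)) ∧
      ∀ g : Fin 13 → Dsc, Function.Injective g → (∀ j, ix (g j) = i) →
        (∀ e ∈ GE, Ed Es (g e.1) (g e.2)) → Conn (Ed Es) {v | ∀ i, v = g i → i = 0} (g 0) z0 →
        Conn (Ed Es) {v | ∀ i, v = g i → 2 ≤ i ∧ i ≤ 6} (g 4) z0 →
        H (g 4) = H (g 0) + 4 ∨ H (g 0) = H (g 4) + 4 := by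
  obtain ⟨D⟩ := h
  obtain ⟨r, hr, hK⟩ := D.noK33
  have e1 : Hrel (fun u v => (inst Es).graph.Adj u v ∧ (inst Es).cl u ≠ (inst Es).cl v)
      (inst Es).cl r = Hrel (fun u v => Ed Es (io Es u) (io Es v))
        (fun v => par (io Es v).2.2.2) r := by
    funext u v
    simp only [Hrel, inter_iff hp, cl_iff]
  rw [e1] at hK
  have ext : ∀ (s : Fin (inst Es).1.length → ℝ) (b : Bool), ∃ j, ∀ w, par (io Es w).2.2.2 = b →
      ∃ z, ix (io Es z) = j ∧ par (io Es z).2.2.2 = b ∧ s z ≤ s w := fun s b => by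
    rcases Set.eq_empty_or_nonempty {w | par (io Es w).2.2.2 = b} with c | c
    · exact ⟨0, fun w hw => absurd hw (Set.eq_empty_iff_forall_notMem.mp c w)⟩
    · obtain ⟨z, hz, hm⟩ := Set.exists_min_image _ s (Set.toFinite _) c
      exact ⟨_, fun w hw => ⟨z, rfl, hz, hm w hw⟩⟩
  choose j1 h1 using ext r
  choose j2 h2 using ext fun v => -r v
  obtain ⟨i, i1, i5, hi⟩ : ∃ i, 1 ≤ i ∧ i ≤ 5 ∧ ∀ b, j1 b ≠ i ∧ j2 b ≠ i := by
    by_contra n
    simp only [not_exists, not_and, Bool.forall_bool] at n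
    have := n 1; have := n 2; have := n 3; have := n 4; have := n 5
    omega
  obtain ⟨z0, rfl⟩ := io_surj h0
  let c : Ctx (Fin (inst Es).1.length) :=
    { E := fun u v => Ed Es (io Es u) (io Es v)
      cl := fun v => par (io Es v).2.2.2
      r := r
      W := {v | ix (io Es v) = i}
      z0 := z0
      hE := fun u v => Ed.symm _ _
      hcl := fun u v => hp _ _
      hr := hr
      hK := hK
      hZ := fun z hz => conn_io (hZ i i1 _ (io_mem z) hz)
      lo := fun w hw => by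
        obtain ⟨z, a, b, c⟩ := h1 _ w rfl
        have n : z ∉ {v | ix (io Es v) = i} := fun k => (hi _).1 (a.symm.trans k)
        exact ⟨z, n, b, lt_of_le_of_ne c (hr.ne fun e => n (e ▸ hw))⟩
      hi := fun w hw => by
        obtain ⟨z, a, b, c⟩ := h2 _ w rfl
        have n : z ∉ {v | ix (io Es v) = i} := fun k => (hi _).2 (a.symm.trans k)
        exact ⟨z, n, b, lt_of_le_of_ne (neg_le_neg_iff.mp c) (hr.ne fun e => n (e ▸ hw))⟩ }
  obtain ⟨h, p1, p2, p3⟩ := c.heights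
  have ce : ∀ v, Function.extend (io Es) h (fun _ => 0) (io Es v) = h v := io_inj.extend_apply _ _
  refine ⟨i, i1, i5, Function.extend (io Es) h fun _ => 0, fun u v a b e => ?_,
    fun g gi gW ge z1 z2 => ?_⟩
  · obtain ⟨u, rfl⟩ := io_surj (mem_verts.mpr ⟨_, e.symm⟩)
    obtain ⟨v, rfl⟩ := io_surj (mem_verts.mpr ⟨_, e⟩)
    rw [ce, ce]
    exact p2 u a v b e
  · have mem : ∀ j, g j ∈ verts Es := fun j => by
      obtain ⟨e, he, k | k⟩ := (by decide : ∀ j : Fin 13, ∃ e ∈ GE, e.1 = j ∨ e.2 = j) j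
      exacts [mem_verts.mpr ⟨_, k ▸ (ge e he).symm⟩, mem_verts.mpr ⟨_, k ▸ ge e he⟩]
    choose y hy using fun j => io_surj (mem j)
    obtain rfl : g = fun j => io Es (y j) := funext fun j => (hy j).symm
    rw [ce, ce]
    exact c.gear p3 p1 p2 (fun s t e => gi (congrArg (io Es) e)) gW ge
      ((conn_io z1).mono fun v hv j e => hv j (congrArg _ e))
      ((conn_io z2).mono fun v hv j e => hv j (congrArg _ e))

end Pool.Agent.Lib.MP_c1785c_lc.S3
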