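import Pool.Agent.Lib.MP_c1785c_lc.S3.NetYes

/-!
A clique-planar subcubic grid yields a colouring of its nodes that respects the links.
-/

set_option autoImplicit false

namespace Pool.Agent.Lib.MP_c1785c_lc.S3

variable {NP NQ : ℕ} {lab : ℕ → ℕ → ℕ → ℕ} {U : Set Dsc} {z : Dsc}

lemma ed_of {P Q d τ : ℕ} (m : Gd NP NQ lab P Q d τ) {e : ℕ × ℕ} (he : e ∈ ed3 d τ) :
    Ed (net NP NQ lab) (emb3 (P, Q, d, τ) e.1) (emb3 (P, Q, d, τ) e.2) :=
  ed_net.mpr ⟨P, Q, d, τ, m, e.1, e.2, .inl he, rfl, rfl⟩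

lemma reach_conn {P Q d τ av n k0 k : ℕ} (m : Gd NP NQ lab P Q d τ)
    (hU : ∀ k ∈ vs3 d τ, av.testBit k = false → emb3 (P, Q, d, τ) k ∈ U)
    (h0 : Conn (Ed (net NP NQ lab)) U (emb3 (P, Q, d, τ) k0) z)
    (hk : (reach (ed3 d τ) av n k0).testBit k = true) :
    Conn (Ed (net NP NQ lab)) U (emb3 (P, Q, d, τ) k) z :=
  reach_ok (fun k => Conn (Ed (net NP NQ lab)) U (emb3 (P, Q, d, τ) k) z) (fun e he a b =>
    have v := E3d.vs (.inl he : E3d d τ e.1 e.2)
    ⟨(Conn.single (hU _ v.2 b) (hU _ v.1 a) (ed_of m he).symm).trans,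
      (Conn.single (hU _ v.1 a) (hU _ v.2 b) (ed_of m he)).trans⟩) h0 k hk

lemma emb_lo (l : Dsc) {k : ℕ} (h : k < 1024) : emb3 l k = (l.1, l.2.1, 0, k) := if_pos h

lemma emb_mid (l : Dsc) {k : ℕ} (h : k < 1024) :
    emb3 l (1024 + k) = ((nx l).1, (nx l).2, 0, k) := by
  rw [emb3, if_neg (by omega), if_pos (by omega), Nat.add_sub_cancel_left]

lemma emb_hi (l : Dsc) {k : ℕ} (h : 2048 ≤ k) : emb3 l k = (l.1, l.2.1, l.2.2.1, k) := by
  rw [emb3, if_neg (by omega), if_neg (by omega)]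

lemma node_conn {P Q k : ℕ} (hP : P < NP) (hQ : Q < NQ) (hU : ∀ k, (P, Q, 0, k) ∈ U)
    (hk : k ∈ vs3 0 0) (h0 : Conn (Ed (net NP NQ lab)) U (P, Q, 0, 292) z) :
    Conn (Ed (net NP NQ lab)) U (P, Q, 0, k) z := by
  have lt : ∀ k ∈ vs3 0 0, k < 1024 := fun k hk => (t_node k hk).2.1.trans (by decide)
  have := reach_conn (.inl ⟨rfl, rfl, hP, hQ⟩ : Gd NP NQ lab P Q 0 0)
    (fun k hk _ => by rw [emb_lo _ (lt k hk)]; exact hU k) (k0 := 292) h0 (r_node k hk)
  rwa [emb_lo _ (lt k hk)] at this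

lemma rt_mem {d : ℕ} (hd : d = 1 ∨ d = 2) (τ : ℕ) : rt d τ < 1024 ∧ rt d τ ∈ vs3 0 0 := by
  have a := (t_port d (d12 hd) (sA d + 21) (by simp)).1
  have b := (t_port d (d12 hd) (sA d + 22) (by simp)).1
  rcases hd with rfl | rfl <;> unfold rt <;> rw [if_neg (by decide)] <;> split_ifs
  exacts [⟨by decide, a⟩, ⟨by decide, b⟩, ⟨by decide, a⟩, ⟨by decide, b⟩]

/-- the lower part of the column and the bottom row lie in `U` -/
def Low (P Q : ℕ) (U : Set Dsc) : Prop := ∀ v : Dsc, (v.2.1 = 0 ∨ (v.1 = P ∧ v.2.1 < Q)) → v ∈ U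

variable (hl : ∀ P Q d, lab P Q d < 3)
include hl

lemma link_conn {P Q d τ : ℕ} (m : Gd NP NQ lab P Q d τ) (hd : d ≠ 0)
    (hU : ∀ d k, (P, Q, d, k) ∈ U) (h0 : Conn (Ed (net NP NQ lab)) U (P, Q, 0, 292) z) :
    (∀ k ∈ vs3 d τ, 2048 ≤ k → Conn (Ed (net NP NQ lab)) U (P, Q, d, k) z) ∧
    (emb3 (P, Q, d, τ) (sB d + 4) ∈ U →
      Conn (Ed (net NP NQ lab)) U (emb3 (P, Q, d, τ) (sB d + 4)) z) := by
  have m' := m.resolve_left fun m => hd m.1
  have hd' : d = 1 ∨ d = 2 := by omega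
  have t := r_link d (d12 hd') τ (m.lt hl).2
  have r := rt_mem hd' τ
  have h1 : Conn (Ed (net NP NQ lab)) U (emb3 (P, Q, d, τ) (rt d τ)) z := by
    rw [emb_lo _ r.1]
    exact node_conn (P := P) (Q := Q) (by omega) (by omega) (hU 0) r.2 h0
  have mem : ∀ k ∈ vs3 d τ, k ≠ sB d + 4 → k ≠ sB d + 5 → emb3 (P, Q, d, τ) k ∈ U := by
    intro k hk a b
    rcases t_kind d (d12 hd') τ (m.lt hl).2 k hk with (c | c) | c
    · rw [emb_lo _ (by unfold sA at c; split_ifs at c <;> omega)]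
      exact hU _ _
    · omega
    · rw [emb_hi _ (by omega)]
      exact hU _ _
  refine ⟨fun k hk k2 => ?_, fun h => reach_conn m (fun k hk a => ?_) h1 t.2⟩
  · have := reach_conn m (fun k hk a => mem k hk (fun e => by simp [e] at a)
      fun e => by simp [e] at a) h1 (t.1 k hk k2)
    rwa [emb_hi _ k2] at this
  · by_cases c : k = sB d + 4
    · exact c ▸ h
    · exact mem k hk c fun e => by simp [e] at a

lemma down {P Q : ℕ} (hP : P < NP) (hQ : Q < NQ) (hU : Low P Q U) (h : (P, Q, 0, 292) ∈ U) :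
    Conn (Ed (net NP NQ lab)) U (P, Q, 0, 292) (0, 0, 0, 292) := by
  induction Q with
  | zero =>
    have row : ∀ P d k, (P, 0, d, k) ∈ U := fun P d k => hU _ (.inl rfl)
    clear hU h
    induction P with
    | zero => exact .refl (row _ _ _)
    | succ P ih =>
      have a := (link_conn hl (.inr ⟨rfl, .inl ⟨rfl, hP, hQ⟩⟩) one_ne_zero (row P)
        (ih (by omega))).2 (row _ _ _)
      have b := node_conn (lab := lab) hP hQ (row _ 0) (t_port 1 (by decide) 1060 (by decide)).1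
        (.refl (row _ _ _))
      exact (b.symm Ed.symm).trans a
  | succ Q ih =>
    have col : ∀ d k, (P, Q, d, k) ∈ U := fun d k => hU _ (.inr ⟨rfl, Q.lt_succ_self⟩)
    exact (link_conn hl (.inr ⟨rfl, .inr ⟨rfl, hP, hQ⟩⟩) two_ne_zero col (ih (by omega)
      (fun v hv => hU v (hv.imp_right fun k => ⟨k.1, k.2.trans Q.lt_succ_self⟩)) (col _ _))).2 h

lemma gear_conn {P Q d τ b : ℕ} (m : Gd NP NQ lab P Q d τ) (hQ : Q ≠ 0)
    (hb : ∀ j, emb3 (P, Q, d, τ) (gv j + b) = (P, Q, d, gv j + b)) (hr : ∀ j, gv j + b ≠ rt d τ)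
    {p : Fin 13 → Prop} {av k : ℕ} (h1 : ∀ j, p j ∨ av.testBit (gv j + b) = true)
    (h2 : (reach (ed3 d τ) av 2 (rt d τ)).testBit k = true) :
    Conn (Ed (net NP NQ lab)) {v | ∀ j, v = emb3 (P, Q, d, τ) (gv j + b) → p j}
      (emb3 (P, Q, d, τ) k) (0, 0, 0, 292) := by
  have lt : P < NP ∧ Q < NQ := by unfold Gd at m; omega
  have low : Low P Q {v | ∀ j, v = emb3 (P, Q, d, τ) (gv j + b) → p j} := fun v hv j e => by
    rw [e, hb] at hv
    simp only at hv
    omega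
  refine reach_conn m (fun k _ a j e => (h1 j).resolve_right ?_) ?_ h2
  · rw [← emb3_inj e, a]
    decide
  by_cases c : d = 0
  · subst c
    exact down hl lt.1 lt.2 low fun j e => absurd (emb3_inj (k := 292) e).symm (hr j)
  · have r := rt_mem (d := d) (by have := (m.lt hl).1; omega) τ
    have all : ∀ k, (P, Q, 0, k) ∈ {v | ∀ j, v = emb3 (P, Q, d, τ) (gv j + b) → p j} :=
      fun k j e => absurd (congrArg (·.2.2.1) (e.trans (hb j))).symm c
    rw [emb_lo _ r.1]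
    exact node_conn lt.1 lt.2 all r.2 (down hl lt.1 lt.2 low (all _))

theorem net_no3 {sh : Bool} (h : (inst (net NP NQ lab)).CliquePlanar sh) (w : ℕ)
    (hP : 0 < NP) (hQ : 0 < NQ) : ∃ i < 5, ∃ g : ℕ → ℕ → Fin 3, ∀ l ∈ links NP NQ lab, l.2.1 ≠ 0 →
      l.1 / w = i → (nx l).1 / w = i → Ok l.2.2.2 (g l.1 l.2.1) (g (nx l).1 (nx l).2) := by
  obtain ⟨i, i1, i5, H, c1, c2⟩ := inst_no3 (net_par3 hl) h (ix w) (0, 0, 0, 292)
    (mem_verts.mpr ⟨_, ed_of (.inl ⟨rfl, rfl, hP, hQ⟩) (e := (291, 292)) (by decide +kernel)⟩) (by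
    rintro i i1 ⟨P, Q, d, k⟩ hv n
    have all : ∀ d k, (P, Q, d, k) ∈ {y | ix w y ≠ i} := fun _ _ => n
    have low : Low P Q {y | ix w y ≠ i} := fun v hv => by
      simp only [ix, Set.mem_ofPred_eq] at n ⊢
      rcases hv with a | ⟨a, b⟩
      · rw [if_pos a]
        omega
      · rw [a]
        split_ifs at * <;> omega
    rcases net_vert hl hv with ⟨a, b, rfl, c⟩ | ⟨m, a, b, c⟩
    · exact node_conn a b (all 0) c (down hl a b low (all _ _))
    · have lt : P < NP ∧ Q < NQ := by unfold Gd at m; simp only at m; omega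
      exact (link_conn hl m a all (down hl lt.1 lt.2 low (all _ _))).1 k b (c.1.trans' (by decide)))
  have tall : ∀ {P Q d τ b : ℕ}, Gd NP NQ lab P Q d τ → Q ≠ 0 → P / w + 1 = i →
      (∀ j, emb3 (P, Q, d, τ) (gv j + b) = (P, Q, d, gv j + b)) → GOk d τ b →
      (∀ e ∈ gearE b, e ∈ ed3 d τ) → Tall (fun k => H (emb3 (P, Q, d, τ) k)) b :=
    fun m q e hb t s => c2 (fun j => emb3 _ (gv j + _))
      (fun _ _ k => gv_inj (Nat.add_right_cancel (emb3_inj k)))
      (fun j => by rw [hb]; exact (if_neg q).trans e)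
      (fun e he => ed_of m (s _ (List.mem_map_of_mem he)))
      (gear_conn hl m q hb t.2.2.1 t.1 t.2.2.2.1) (gear_conn hl m q hb t.2.2.1 t.2.1 t.2.2.2.2)
  have gl : ∀ j, gv j < 300 := by decide
  have rig : ∀ P < NP, ∀ Q < NQ, Q ≠ 0 → P / w + 1 = i →
      Rg (fun k => H (emb3 (P, Q, 0, 0) k)) 1 ∨ Rg (fun k => H (emb3 (P, Q, 0, 0) k)) (-1) := by
    intro P a Q b q e
    have m : Gd NP NQ lab P Q 0 0 := .inl ⟨rfl, rfl, a, b⟩
    have all : ∀ k ∈ vs3 0 0, ix w (emb3 (P, Q, 0, 0) k) = i := fun k hk => by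
      rw [emb_lo _ ((t_node k hk).2.1.trans (by decide))]
      exact (if_neg q).trans e
    refine node_rigid (fun e he => ?_) fun j hj => tall m q e
      (fun s => emb_lo _ (by have := gl s; omega)) (r_gear0 j hj) fun e he => ?_
    · have v := E3d.vs (.inl he : E3d 0 0 e.1 e.2)
      exact c1 _ _ (all _ v.1) (all _ v.2) (ed_of m he)
    · rw [ed3, if_pos rfl, node_eq]
      exact List.mem_append_right _ (List.mem_append_right _ (gear_sub hj e he))
  refine ⟨i - 1, by omega, fun P Q => colr (H (P, Q, 0, 292) + 6 * (P + Q : ℕ)), ?_⟩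
  rintro ⟨P, Q, d, τ⟩ m a b c
  have m' := mem_links.mp m
  have hd : d = 1 ∨ d = 2 := by omega
  have n : (nx (P, Q, d, τ)).1 < NP ∧ (nx (P, Q, d, τ)).2 < NQ ∧ (nx (P, Q, d, τ)).2 ≠ 0 ∧
      (nx (P, Q, d, τ)).1 + (nx (P, Q, d, τ)).2 = P + Q + 1 := by
    simp only at a
    rcases hd with rfl | rfl <;> simp [nx] at m' ⊢ <;> omega
  have b' : P / w + 1 = i := by simp only at b; omega
  have all : ∀ k, ix w (emb3 (P, Q, d, τ) k) = i := fun k => by
    unfold emb3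
    split_ifs
    · exact (if_neg a).trans b'
    · exact (if_neg n.2.2.1).trans (by simp only; omega)
    · exact (if_neg a).trans b'
  have := link_sound3 (τ := τ) hd (f := fun k => H (emb3 (P, Q, d, τ) k)) ((P + Q : ℕ) : ℤ)
    (fun k hk => by rw [emb_lo _ hk, emb_lo _ hk]) (fun k hk => by rw [emb_mid _ hk, emb_lo _ hk])
    (fun e he => c1 _ _ (all _) (all _) (ed_of (.inr m') he))
    (by
      rintro rfl j hj
      refine tall (.inr m') a b' (fun s => emb_hi _ (by omega)) (r_gear1 d (d12 hd) j hj)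
        fun e he => ?_
      rw [ed3, if_neg (by omega), if_neg (by decide), if_neg (by decide), piece_eq]
      exact List.mem_cons_of_mem _ (List.mem_cons_of_mem _
        (List.mem_append_right _ (gear_sub hj e he))))
    (rig P (by omega) Q (by omega) a b') (rig _ n.1 _ n.2.1 n.2.2.1 (by omega))
  simp only [n.2.2.2, Nat.cast_succ]
  exact this

end Pool.Agent.Lib.MP_c1785c_lc.S3
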