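import Pool.Agent.Lib.MP_c1785c_lc.S3.Ins3
import Pool.Agent.Lib.MP_c1785c_lc.S3.Arith
import Pool.Agent.Lib.MP_c1785c_lc.Net

/-!
The subcubic grid of nodes and links: degrees and the levelled drawing.
-/

set_option autoImplicit false

namespace Pool.Agent.Lib.MP_c1785c_lc.S3

def emb3 (l : Dsc) (k : ℕ) : Dsc :=
  if k < 1024 then (l.1, l.2.1, 0, k) else if k < 2048 then ((nx l).1, (nx l).2, 0, k - 1024) else
    (l.1, l.2.1, l.2.2.1, k)

def nodes (NP NQ : ℕ) : List Dsc :=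
  (List.range NP).flatMap fun P => (List.range NQ).map fun Q => (P, Q, 0, 0)

def edges3 (Ls : List Dsc) : List (Dsc × Dsc) :=
  Ls.flatMap fun l => (ed3 l.2.2.1 l.2.2.2).map fun e => (emb3 l e.1, emb3 l e.2)

def net (NP NQ : ℕ) (lab : ℕ → ℕ → ℕ → ℕ) : List (Dsc × Dsc) :=
  edges3 (links NP NQ lab ++ nodes NP NQ)

variable {NP NQ : ℕ} {lab : ℕ → ℕ → ℕ → ℕ}

/-- the gadgets of the grid -/
def Gd (NP NQ : ℕ) (lab : ℕ → ℕ → ℕ → ℕ) (P Q d τ : ℕ) : Prop :=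
  (d = 0 ∧ τ = 0 ∧ P < NP ∧ Q < NQ) ∨ (τ = lab P Q d ∧
    ((d = 1 ∧ P + 1 < NP ∧ Q < NQ) ∨ (d = 2 ∧ P < NP ∧ Q + 1 < NQ)))

lemma mem_gd {P Q d τ : ℕ} :
    (P, Q, d, τ) ∈ links NP NQ lab ++ nodes NP NQ ↔ Gd NP NQ lab P Q d τ := by
  rw [List.mem_append, mem_links, Gd, or_comm]
  refine or_congr_left ?_
  simp only [nodes, List.mem_flatMap, List.mem_range, List.mem_map, Prod.mk.injEq]
  constructor
  · rintro ⟨P', a, Q', b, rfl, rfl, rfl, rfl⟩
    exact ⟨rfl, rfl, a, b⟩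
  · rintro ⟨rfl, rfl, a, b⟩
    exact ⟨P, a, Q, b, rfl, rfl, rfl, rfl⟩

/-- an edge of a gadget -/
def E3d (d τ x y : ℕ) : Prop := (x, y) ∈ ed3 d τ ∨ (y, x) ∈ ed3 d τ

lemma ed_net {u v : Dsc} : Ed (net NP NQ lab) u v ↔ ∃ P Q d τ, Gd NP NQ lab P Q d τ ∧ ∃ x y,
    E3d d τ x y ∧ emb3 (P, Q, d, τ) x = u ∧ emb3 (P, Q, d, τ) y = v := by
  simp only [Ed, net, edges3, List.mem_flatMap, List.mem_map, Prod.mk.injEq]
  constructor
  · rintro (⟨⟨P, Q, d, τ⟩, hl, e, he, a, b⟩ | ⟨⟨P, Q, d, τ⟩, hl, e, he, a, b⟩)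
    exacts [⟨P, Q, d, τ, mem_gd.mp hl, e.1, e.2, .inl he, a, b⟩,
      ⟨P, Q, d, τ, mem_gd.mp hl, e.2, e.1, .inr he, b, a⟩]
  · rintro ⟨P, Q, d, τ, hl, x, y, he | he, a, b⟩
    exacts [.inl ⟨_, mem_gd.mpr hl, _, he, a, b⟩, .inr ⟨_, mem_gd.mpr hl, _, he, b, a⟩]

lemma E3d.vs {d τ x y : ℕ} (h : E3d d τ x y) : x ∈ vs3 d τ ∧ y ∈ vs3 d τ := by
  simp only [vs3, List.mem_flatMap, List.mem_cons, List.not_mem_nil, or_false]
  exact h.elim (fun h => ⟨⟨_, h, .inl rfl⟩, _, h, .inr rfl⟩)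
    fun h => ⟨⟨_, h, .inr rfl⟩, _, h, .inl rfl⟩

lemma E3d.nb {d τ x y : ℕ} (h : E3d d τ x y) (n : x ≠ y) : y ∈ nb d τ x :=
  List.mem_filterMap.mpr (h.elim (fun h => ⟨_, h, if_pos rfl⟩)
    fun h => ⟨_, h, by rw [if_neg n.symm, if_pos rfl]⟩)

lemma loc_emb (l : Dsc) (k : ℕ) : (emb3 l k).2.2.2 = loc k := by
  unfold emb3 loc
  split_ifs <;> rfl

lemma emb3_inj {l : Dsc} {k k' : ℕ} (h : emb3 l k = emb3 l k') : k = k' := by
  unfold emb3 nx at h
  split_ifs at h <;> simp only [Prod.mk.injEq] at h <;> omega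

lemma d12 {d : ℕ} (h : d = 1 ∨ d = 2) : d ∈ [1, 2] := by simpa using h

lemma kind' {d τ k : ℕ} (hd : d = 1 ∨ d = 2) (hτ : τ < 3) (hk : k ∈ vs3 d τ) :
    k ∈ [sA d + 21, sA d + 22, sA d + 24, sB d + 4, sB d + 5] ∨ (2080 ≤ k ∧ k < 2368) :=
  (t_kind d (d12 hd) τ hτ k hk).imp_left fun h => by
    simpa only [List.mem_cons, List.not_mem_nil, or_false, or_assoc] using h

/-- the box of a gadget -/
def Bx (NQ Q d t r : ℕ) : Prop := t ≤ 34 ∧ Q < NQ ∧ ((d = 0 ∧ 41 ≤ r ∧ r ≤ 49) ∨ (20 ≤ t ∧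
  ((d = 1 ∧ 49 ≤ r ∧ r ≤ 81) ∨ (d = 2 ∧ 9 ≤ r ∧ r ≤ 41))))

lemma zone {P Q d P' Q' d' t1 t2 t3 t4 r1 r2 r3 r4 : ℕ} (u1 : Bx NQ Q d t1 r1)
    (u2 : Bx NQ Q d t2 r2) (u3 : Bx NQ Q' d' t3 r3) (u4 : Bx NQ Q' d' t4 r4)
    (e1 : 18 * (P + Q) + t1 = 18 * (P' + Q') + t3)
    (e4 : 40 * (P + NQ - Q) + r1 < 40 * (P' + NQ - Q') + r3)
    (n : ¬ 40 * (P + NQ - Q) + r2 ≤ 40 * (P' + NQ - Q') + r4) : P = P' ∧ Q = Q' ∧ d = d' := by
  obtain ⟨a1, a2, ⟨rfl, a3⟩ | ⟨a3, ⟨rfl, a4⟩ | ⟨rfl, a4⟩⟩⟩ := u1 <;>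
    obtain ⟨b1, b2, ⟨rfl, b3⟩ | ⟨b3, ⟨rfl, b4⟩ | ⟨rfl, b4⟩⟩⟩ := u3 <;>
    simp [Bx] at u2 u4 <;> omega

variable (hl : ∀ P Q d, lab P Q d < 3)
include hl

lemma Gd.lt {P Q d τ : ℕ} (h : Gd NP NQ lab P Q d τ) : d < 3 ∧ τ < 3 := by
  have := hl P Q d
  unfold Gd at h
  omega

lemma net_par3 (u v : Dsc) (h : Ed (net NP NQ lab) u v) : par u.2.2.2 ≠ par v.2.2.2 := by
  obtain ⟨P, Q, d, τ, m, x, y, e, rfl, rfl⟩ := ed_net.mp h
  rw [loc_emb, loc_emb]
  have t := t_par d (m.lt hl).1 τ (m.lt hl).2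
  exact e.elim (t _) fun e => (t _ e).symm

lemma net_vert {v : Dsc} (hv : v ∈ verts (net NP NQ lab)) :
    (v.1 < NP ∧ v.2.1 < NQ ∧ v.2.2.1 = 0 ∧ v.2.2.2 ∈ vs3 0 0) ∨
      (Gd NP NQ lab v.1 v.2.1 v.2.2.1 (lab v.1 v.2.1 v.2.2.1) ∧ v.2.2.1 ≠ 0 ∧
        v.2.2.2 ∈ vs3 v.2.2.1 (lab v.1 v.2.1 v.2.2.1) ∧ 2080 ≤ v.2.2.2 ∧ v.2.2.2 < 2368) := by
  obtain ⟨u, hu⟩ := mem_verts.mp hv
  obtain ⟨P, Q, d, τ, m, x, y, e, -, rfl⟩ := ed_net.mp hu
  have hy := e.vs.2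
  rcases id m with ⟨rfl, rfl, a, b⟩ | ⟨rfl, a⟩
  · have := t_node y hy
    rw [emb3, if_pos (by omega)]
    exact .inl ⟨a, b, rfl, hy⟩
  · have hd : d = 1 ∨ d = 2 := by omega
    rcases kind' hd (hl _ _ _) hy with k | k
    · left
      have := (t_port d (d12 hd) y k).1
      rw [loc_emb]
      refine ⟨?_, ?_, ?_, this⟩ <;> unfold emb3 nx <;> rcases a with ⟨rfl, a⟩ | ⟨rfl, a⟩ <;>
        simp [sA, sB] at k ⊢ <;> split_ifs <;> first | omega | (simp only; done) | (simp only; omega)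
    · rw [emb3, if_neg (by omega), if_neg (by omega)]
      exact .inr ⟨m, (by omega : d ≠ 0), hy, k⟩

lemma net_deg (v : Dsc) : ∃ L : List Dsc, L.length ≤ 3 ∧ ∀ u, Ed (net NP NQ lab) v u → u ∈ L := by
  have ne : ∀ {P Q d τ x y}, Gd NP NQ lab P Q d τ → E3d d τ x y → x ≠ y := fun m e k => by
    have t := t_par _ (m.lt hl).1 _ (m.lt hl).2
    subst k
    exact e.elim (fun e => t _ e rfl) fun e => t _ e rfl
  by_cases c0 : ∃ u, Ed (net NP NQ lab) v u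
  swap
  · exact ⟨[], by simp, fun u hu => absurd ⟨u, hu⟩ c0⟩
  obtain ⟨P0, Q0, d0, k⟩ := v
  rcases net_vert hl (mem_verts.mpr (c0.imp fun u hu => hu.symm)) with ⟨-, -, rfl, hk⟩ | ⟨m0, n0, hk, b⟩
  · have nd : ∀ {P Q x y}, E3d 0 0 x y → emb3 (P, Q, 0, 0) x = (P0, Q0, 0, k) →
        emb3 (P, Q, 0, 0) y ∈ (nb 0 0 k).map (emb3 (P0, Q0, 0, 0)) := fun e h => by
      have := t_node _ e.vs.1
      rw [emb3, if_pos (by omega)] at h
      simp only [Prod.mk.injEq] at h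
      obtain ⟨rfl, rfl, -, rfl⟩ := h
      have t := t_par 0 (by decide) 0 (by decide)
      exact List.mem_map_of_mem (e.nb fun k => by
        subst k
        exact e.elim (fun e => t _ e rfl) fun e => t _ e rfl)
    have pt : ∀ {P Q d τ x y}, Gd NP NQ lab P Q d τ → d ≠ 0 → E3d d τ x y →
        emb3 (P, Q, d, τ) x = (P0, Q0, 0, k) → (d = 1 ∨ d = 2) ∧
          x ∈ [sA d + 21, sA d + 22, sA d + 24, sB d + 4, sB d + 5] := fun m n e h => by
      have hd := m.resolve_left fun m => n m.1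
      refine ⟨by omega, (kind' (by omega) (m.lt hl).2 e.vs.1).resolve_right fun b => n ?_⟩
      rw [emb3, if_neg (by omega), if_neg (by omega)] at h
      exact congrArg (·.2.2.1) h
    by_cases c : ∃ P Q d τ, Gd NP NQ lab P Q d τ ∧ d ≠ 0 ∧ ∃ x y, E3d d τ x y ∧
        emb3 (P, Q, d, τ) x = (P0, Q0, 0, k)
    · obtain ⟨P1, Q1, d1, τ1, m1, n1, x1, y1, e1, h1⟩ := c
      obtain ⟨a1, b1⟩ := pt m1 n1 e1 h1
      have t := t_port d1 (d12 a1) x1 b1
      have lk : loc x1 = k := (loc_emb _ _).symm.trans (congrArg (·.2.2.2) h1)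
      refine ⟨(nb 0 0 k).map (emb3 (P0, Q0, 0, 0)) ++ (nb d1 τ1 x1).map (emb3 (P1, Q1, d1, τ1)),
        ?_, fun u hu => ?_⟩
      · have := t.2.2 τ1 (m1.lt hl).2
        have := lk ▸ t.2.1
        simp only [List.length_append, List.length_map]
        omega
      obtain ⟨P, Q, d, τ, m, x, y, e, h, rfl⟩ := ed_net.mp hu
      by_cases n : d = 0
      · obtain ⟨rfl, rfl, -⟩ := m.resolve_right (by omega)
        exact List.mem_append_left _ (nd e h)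
      obtain ⟨a, b⟩ := pt m n e h
      have : P = P1 ∧ Q = Q1 ∧ d = d1 ∧ x = x1 := by
        rw [← h1] at h
        simp only [List.mem_cons, List.not_mem_nil, or_false, sA, sB] at b b1
        unfold emb3 nx at h
        rcases a with rfl | rfl <;> rcases a1 with rfl | rfl <;> simp at b b1 <;>
          split_ifs at h <;> simp only [Prod.mk.injEq] at h <;> omega
      obtain ⟨rfl, rfl, rfl, rfl⟩ := this
      obtain rfl : τ = τ1 := (m.resolve_left fun m => n m.1).1.trans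
        (m1.resolve_left fun m => n m.1).1.symm
      exact List.mem_append_right _ (List.mem_map_of_mem (e.nb (ne m e)))
    · refine ⟨(nb 0 0 k).map (emb3 (P0, Q0, 0, 0)), ?_, fun u hu => ?_⟩
      · rw [List.length_map]
        exact t_deg 0 (by decide) 0 (by decide) k hk
      obtain ⟨P, Q, d, τ, m, x, y, e, h, rfl⟩ := ed_net.mp hu
      by_cases n : d = 0
      · obtain ⟨rfl, rfl, -⟩ := m.resolve_right (by omega)
        exact nd e h
      · exact absurd ⟨P, Q, d, τ, m, n, x, y, e, h⟩ c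
  · simp only at m0 n0 hk b
    refine ⟨(nb d0 (lab P0 Q0 d0) k).map (emb3 (P0, Q0, d0, lab P0 Q0 d0)), ?_, fun u hu => ?_⟩
    · rw [List.length_map]
      exact t_deg d0 (m0.lt hl).1 _ (by rw [if_neg n0]; exact hl _ _ _) k hk
    obtain ⟨P, Q, d, τ, m, x, y, e, h, rfl⟩ := ed_net.mp hu
    have : P = P0 ∧ Q = Q0 ∧ d = d0 ∧ x = k := by
      unfold emb3 at h
      split_ifs at h <;> simp only [Prod.mk.injEq] at h <;> omega
    obtain ⟨rfl, rfl, rfl, rfl⟩ := this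
    obtain rfl : τ = lab P Q d := (m.resolve_left fun m => n0 m.1).1
    exact List.mem_map_of_mem (e.nb (ne m e))

theorem net_yes3 (col : ℕ → ℕ → Fin 3)
    (hc : ∀ l ∈ links NP NQ lab, Ok l.2.2.2 (col l.1 l.2.1) (col (nx l).1 (nx l).2)) (sh : Bool) :
    (inst (net NP NQ lab)).CliquePlanar sh := by
  let T : ℕ → ℕ → ℕ → ℕ → ℕ → ℕ := fun P Q d τ k =>
    T3 τ (col P Q) (col (nx (P, Q, d, τ)).1 (nx (P, Q, d, τ)).2) k
  let lev : Dsc → ℕ := fun v => 18 * (v.1 + v.2.1) + T v.1 v.2.1 v.2.2.1 (lab v.1 v.2.1 v.2.2.1) v.2.2.2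
  let X : Dsc → ℕ := fun v => 40 * (v.1 + NQ - v.2.1) + R3 v.2.2.1 v.2.2.2
  have ok : ∀ {P Q d τ}, Gd NP NQ lab P Q d τ →
      Ok τ (col P Q) (col (nx (P, Q, d, τ)).1 (nx (P, Q, d, τ)).2) := fun m =>
    m.elim (fun m => ⟨by omega, by omega⟩) fun m => hc _ (mem_links.mpr m)
  have A : ∀ {P Q d τ}, Gd NP NQ lab P Q d τ → ∀ k ∈ vs3 d τ,
      lev (emb3 (P, Q, d, τ) k) = 18 * (P + Q) + T P Q d τ k ∧
      X (emb3 (P, Q, d, τ) k) = 40 * (P + NQ - Q) + R3 d k := by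
    intro P Q d τ m k hk
    by_cases k0 : k < 1024
    · simp only [lev, X, T, T3, R3, emb3, k0, if_true, and_self]
    obtain ⟨rfl, m'⟩ := m.resolve_left fun m => by
      obtain ⟨rfl, rfl, -⟩ := m
      have := t_node k hk
      omega
    by_cases k1 : k < 2048
    · have : k - 1024 < 1024 := by omega
      simp only [lev, X, T, T3, R3, emb3, k0, k1, this, if_true, if_false]
      rcases m' with ⟨rfl, m'⟩ | ⟨rfl, m'⟩ <;> simp [nx] <;> omega
    · simp only [lev, X, T, emb3, k0, k1, if_false, nx, and_self]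
  have B : ∀ {P Q d τ}, Gd NP NQ lab P Q d τ → ∀ k ∈ vs3 d τ,
      Bx NQ Q d (T P Q d τ k) (R3 d k) := by
    intro P Q d τ m k hk
    rcases id m with ⟨rfl, rfl, a, b⟩ | ⟨rfl, a⟩
    · have := t_node k hk
      have := (col P Q).2
      simp only [Bx, T, T3, R3, show k < 1024 by omega, if_true, true_and]
      omega
    · have hd : d = 1 ∨ d = 2 := by omega
      have := t_band d (d12 hd) _ (hl _ _ _) _ _ (ok m) k hk
      refine ⟨this.2, by omega, .inr ⟨this.1, ?_⟩⟩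
      have := t_kind d (d12 hd) _ (hl _ _ _) k hk
      unfold R3
      rcases hd with rfl | rfl <;> simp [sA, sB] at this ⊢ <;> split_ifs <;> omega
  refine inst_yes (net_par3 hl) lev X ?_ ?_ ?_ sh
  · rintro ⟨P, Q, d, k⟩ hu ⟨P', Q', d', k'⟩ hv e1 e2
    simp only [lev, X] at e1 e2
    rcases net_vert hl hu with ⟨-, a, rfl, hk⟩ | ⟨m, n, hk, b⟩ <;>
      rcases net_vert hl hv with ⟨-, a', rfl, hk'⟩ | ⟨m', n', hk', b'⟩ <;> simp only at *
    · have := t_node k hk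
      have := t_node k' hk'
      have := (col P Q).2
      have := (col P' Q').2
      simp only [T, T3, R3, show k < 1024 by omega, show k' < 1024 by omega, if_true] at e1 e2
      obtain ⟨rfl, rfl⟩ : P = P' ∧ Q = Q' := by omega
      rw [show k = k' by omega]
    · have := t_node k hk
      have := (B m' _ hk').2.1
      unfold R3 at e2
      split_ifs at e2 <;> omega
    · have := t_node k' hk'
      have := (B m _ hk).2.1
      unfold R3 at e2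
      split_ifs at e2 <;> omega
    · have b1 := B m _ hk
      have b2 := B m' _ hk'
      obtain ⟨rfl, rfl, rfl⟩ : P = P' ∧ Q = Q' ∧ d = d' := by
        unfold Bx at b1 b2
        generalize T P Q d (lab P Q d) k = t at *
        generalize T P' Q' d' (lab P' Q' d') k' = t' at *
        have b3 := b1.2.2.resolve_left fun h => n h.1
        have b4 := b2.2.2.resolve_left fun h => n' h.1
        have b5 : d = 1 ∨ d = 2 := by omega
        have b6 : d' = 1 ∨ d' = 2 := by omega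
        have b7 := And.intro (And.intro b1.1 b3.1) (And.intro b1.2.1
          (And.intro b2.1 (And.intro b4.1 b2.2.1)))
        clear b1 b2 b3 b4
        unfold R3 at e2
        split_ifs at e2 <;> omega
      rw [t_inj d (d12 (by unfold Gd at m; omega)) _ (hl _ _ _) _ _ (ok m) k (List.mem_dedup.mpr hk) k'
        (List.mem_dedup.mpr hk') (Nat.add_left_cancel e1) (Nat.add_left_cancel e2)]
  · intro u v h
    obtain ⟨P, Q, d, τ, m, x, y, e, rfl, rfl⟩ := ed_net.mp h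
    rw [(A m _ e.vs.1).1, (A m _ e.vs.2).1]
    rcases e with e | e <;> have := t_step _ (m.lt hl).1 _ (m.lt hl).2 _ _ (ok m) _ e <;>
      simp only [T] at this ⊢ <;> omega
  · intro u u' v v' h h' e1 e2 e3 e4
    obtain ⟨P, Q, d, τ, m, x, y, e, rfl, rfl⟩ := ed_net.mp h
    obtain ⟨P', Q', d', τ', m', x', y', e', rfl, rfl⟩ := ed_net.mp h'
    simp only [A m _ e.vs.1, A m _ e.vs.2, A m' _ e'.vs.1, A m' _ e'.vs.2] at e1 e2 e3 e4 ⊢
    by_contra n
    obtain ⟨rfl, rfl, rfl⟩ := zone (B m _ e.vs.1) (B m _ e.vs.2) (B m' _ e'.vs.1) (B m' _ e'.vs.2)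
      e1 e4 n
    obtain rfl : τ = τ' := by unfold Gd at m m'; omega
    have up : ∀ a b x y, E3d d τ x y → T3 τ a b x < T3 τ a b y → (x, y) ∈ ups3 d τ a b :=
      fun a b x y e h => e.elim (fun e => List.mem_map.mpr ⟨_, e, if_pos h⟩)
        fun e => List.mem_map.mpr ⟨_, e, if_neg h.not_gt⟩
    simp only [T] at e1 e2 e3
    by_cases c : d = 0
    · obtain ⟨rfl, rfl, -⟩ := m.resolve_right (by omega)
      have := t_node _ e.vs.1
      have := t_node _ e.vs.2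
      have := t_node _ e'.vs.1
      have := t_node _ e'.vs.2
      have t := fun (a : T3 0 0 0 x < T3 0 0 0 y) (b : T3 0 0 0 x' < T3 0 0 0 y') =>
        t_nc0 _ (up 0 0 x y e a) _ (up 0 0 x' y' e' b)
      simp only [T3, R3, show x < 1024 by omega, show y < 1024 by omega, show x' < 1024 by omega,
        show y' < 1024 by omega, if_true] at e1 e2 e3 e4 n t
      omega
    · have := t_nc d (d12 (by have := (m.lt hl).1; omega)) _ (m.lt hl).2 _ _ (ok m) _ (up _ _ x y e (by omega)) _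
        (up _ _ x' y' e' (by omega)) (Nat.add_left_cancel e1) (Nat.lt_of_add_lt_add_left e4)
      exact n (Nat.add_le_add_left this _)

end Pool.Agent.Lib.MP_c1785c_lc.S3
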