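import Pool.Agent.Lib.MP_c1785c_lc.S3.Split

/-!
Segments of the two paths inside the part of the graph that avoids their ends: separation
lemmas and integer heights.
-/

set_option autoImplicit false

namespace Pool.Agent.Lib.MP_c1785c_lc.S3

open Set

/-- A bipartite graph with linear orders of its classes and a part `W` avoiding the ends. -/
structure Ctx (V : Type) where
  E : V → V → Prop
  cl : V → Bool
  r : V → ℝ
  W : Set V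
  z0 : V
  hE : ∀ u v, E u v → E v u
  hcl : ∀ u v, E u v → cl u ≠ cl v
  hr : Function.Injective r
  hK : NoK33 (Hrel E cl r)
  hZ : ∀ z, z ∉ W → Conn E Wᶜ z z0
  lo : ∀ w ∈ W, ∃ z, z ∉ W ∧ cl z = cl w ∧ r z < r w
  hi : ∀ w ∈ W, ∃ z, z ∉ W ∧ cl z = cl w ∧ r w < r z

namespace Ctx

variable {V : Type} (c : Ctx V)

def H : V → V → Prop := Hrel c.E c.cl c.r

def sg (u : V) : Set V := {z | z ∉ c.W ∧ c.cl z = c.cl u ∧ c.r z < c.r u}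

def D (s : Set V) : Set V := {y | y ∈ c.W ∧ c.sg y ≠ s}

def cp (s : Set V) (u : V) : Set V := {v | Conn c.H (c.D s) u v}

def J (s K : Set V) : Set V := {x | x ∈ c.W ∧ c.sg x = s ∧ (∃ u ∈ c.D s, K = c.cp s u) ∧
  (∃ a ∈ K, ∃ p ∈ c.W, c.sg p = s ∧ c.E a p ∧ c.r p < c.r x) ∧
    ∃ a ∈ K, ∃ p ∈ c.W, c.sg p = s ∧ c.E a p ∧ c.r x < c.r p}

lemma Hs (u v : V) (h : c.H u v) : c.H v u := Hrel.symm c.hE u v h

lemma sgcl (u : V) (hu : u ∈ c.W) (v : V) (e : c.sg u = c.sg v) : c.cl u = c.cl v := by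
  obtain ⟨z, hz⟩ := c.lo u hu
  exact hz.2.1.symm.trans (show z ∈ c.sg v from e ▸ hz).2.1

lemma sgne {u v : V} (hu : u ∈ c.W) (h : c.E u v) : c.sg u ≠ c.sg v :=
  fun e => c.hcl _ _ h (c.sgcl u hu v e)

lemma mid (u v y : V) (hv : v ∈ c.W) (k : c.cl u = c.cl v) (e : c.sg u = c.sg v)
    (cy : c.cl y = c.cl u) (h1 : c.r u ≤ c.r y) (h2 : c.r y ≤ c.r v) :
    y ∈ c.W ∧ c.sg y = c.sg v := by
  refine ⟨by_contra fun n => ?_, Subset.antisymm (fun z hz => ?_) fun z hz => ?_⟩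
  · have : y ∈ c.sg u := e ▸ ⟨n, cy.trans k, lt_of_le_of_ne h2 (c.hr.ne fun e => n (e ▸ hv))⟩
    exact this.2.2.not_ge h1
  · exact ⟨hz.1, (hz.2.1.trans cy).trans k, hz.2.2.trans_le h2⟩
  · have : z ∈ c.sg u := e ▸ hz
    exact ⟨this.1, this.2.1.trans cy.symm, this.2.2.trans_le h1⟩

lemma cpe (s : Set V) (u v : V) (h : Conn c.H (c.D s) u v) : c.cp s u = c.cp s v :=
  Set.ext fun _ => ⟨(h.symm c.Hs).trans, h.trans⟩

lemma cp_edge {s : Set V} {u v : V} (hu : u ∈ c.D s) (hv : v ∈ c.D s) (h : c.E u v) :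
    c.cp s u = c.cp s v := c.cpe s u v (.single hu hv (.inl h))

variable [Finite V]

lemma inseg0 (u : V) (hu : u ∈ c.W) (v : V) (hv : v ∈ c.W) (e : c.sg u = c.sg v)
    (h : c.r u ≤ c.r v) :
    Conn c.H {y | y ∈ c.W ∧ c.sg y = c.sg v ∧ c.r u ≤ c.r y ∧ c.r y ≤ c.r v} u v :=
  (chain u v (c.sgcl u hu v e) h).mono fun y hy =>
    have := c.mid u v y hv (c.sgcl u hu v e) e hy.1 hy.2.1 hy.2.2
    ⟨this.1, this.2, hy.2⟩

lemma inseg (u : V) (hu : u ∈ c.W) (v : V) (hv : v ∈ c.W) (e : c.sg u = c.sg v) (U : Set V)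
    (hU : ∀ y ∈ c.W, c.sg y = c.sg v → min (c.r u) (c.r v) ≤ c.r y →
      c.r y ≤ max (c.r u) (c.r v) → y ∈ U) : Conn c.H U u v := by
  rcases le_total (c.r u) (c.r v) with h | h
  · exact (c.inseg0 u hu v hv e h).mono fun y hy =>
      hU y hy.1 hy.2.1 (min_le_of_left_le hy.2.2.1) (le_max_of_le_right hy.2.2.2)
  · exact ((c.inseg0 v hv u hu e.symm h).symm c.Hs).mono fun y hy =>
      hU y hy.1 (hy.2.1.trans e) (min_le_of_right_le hy.2.2.1) (le_max_of_le_left hy.2.2.2)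

lemma cp_seg {s : Set V} {u v : V} (hu : u ∈ c.W) (hv : v ∈ c.D s) (e : c.sg u = c.sg v) :
    c.cp s u = c.cp s v :=
  c.cpe s _ _ (c.inseg _ hu v hv.1 e _ fun _ y1 y2 _ _ => ⟨y1, y2.symm ▸ hv.2⟩)

omit [Finite V] in
lemma hZ' (z : V) (hz : z ∉ c.W) : Conn c.H c.Wᶜ z c.z0 :=
  (c.hZ z hz).mono' (fun _ _ => .inl) Subset.rfl

lemma down (v : V) (hv : v ∈ c.W) (U : Set V)
    (hU : ∀ y ∈ c.W, c.sg y = c.sg v → c.r y ≤ c.r v → y ∈ U) : Conn c.H (U ∪ c.Wᶜ) v c.z0 := by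
  obtain ⟨z, hz, hm⟩ := exists_max_image (c.sg v) c.r (toFinite _) (c.lo v hv)
  refine (((chain z v hz.2.1 hz.2.2.le).symm c.Hs).mono fun y hy => ?_).trans
    ((c.hZ' z hz.1).mono subset_union_right)
  by_cases k : y ∈ c.W
  · refine .inl (hU y k (Subset.antisymm (fun t ht => ?_) fun t ht => ?_) hy.2.2)
    · exact ⟨ht.1, (ht.2.1.trans hy.1).trans hz.2.1, ht.2.2.trans_le hy.2.2⟩
    · exact ⟨ht.1, ht.2.1.trans (hy.1.trans hz.2.1).symm, lt_of_le_of_ne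
        ((hm t ht).trans hy.2.1) (c.hr.ne fun e => ht.1 (e ▸ k))⟩
  · exact .inr k

lemma up (v : V) (hv : v ∈ c.W) (U : Set V)
    (hU : ∀ y ∈ c.W, c.sg y = c.sg v → c.r v ≤ c.r y → y ∈ U) : Conn c.H (U ∪ c.Wᶜ) v c.z0 := by
  obtain ⟨z, hz, hm⟩ := exists_min_image {z | z ∉ c.W ∧ c.cl z = c.cl v ∧ c.r v < c.r z} c.r
    (toFinite _) (c.hi v hv)
  refine ((chain v z hz.2.1.symm hz.2.2.le).mono fun y hy => ?_).trans
    ((c.hZ' z hz.1).mono subset_union_right)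
  by_cases k : y ∈ c.W
  · refine .inl (hU y k (Subset.antisymm (fun t ht => ?_) fun t ht => ?_) hy.2.1)
    · refine ⟨ht.1, ht.2.1.trans hy.1, lt_of_le_of_ne (not_lt.mp fun k => ?_)
        (c.hr.ne fun e => ht.1 (e ▸ hv))⟩
      exact (hm t ⟨ht.1, ht.2.1.trans hy.1, k⟩).not_gt (ht.2.2.trans_le hy.2.2)
    · exact ⟨ht.1, ht.2.1.trans hy.1.symm, ht.2.2.trans_le hy.2.1⟩
  · exact .inr k

lemma two_sides (s : Set V) : ∃ two : Set V → Bool, ∀ K K' x, K ≠ K' → x ∈ c.J s K →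
    x ∈ c.J s K' → two K ≠ two K' := by
  refine two_colour c.r (c.J s) ?_ ?_
  · rintro K K' x y z ⟨-, -, k, ⟨a, a1, p, p1, p2, p3, p4⟩, -⟩
      ⟨-, -, -, -, b, b1, q, q1, q2, q3, q4⟩ ⟨y1, y2, -⟩ h1 h2
    exact ⟨y1, y2, k, ⟨a, a1, p, p1, p2, p3, p4.trans_le h1⟩, b, b1, q, q1, q2, q3,
      h2.trans_lt q4⟩
  · intro K1 K2 K3 x m1 m2 m3
    by_contra n
    simp only [not_or] at n
    obtain ⟨-, -, -, ⟨-, -, p0, p01, p02, -, p03⟩, -, -, q0, q01, q02, -, q03⟩ := id m1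
    have key : ∀ K, x ∈ c.J s K → ∃ u, K = c.cp s u ∧
        Conn c.H (K ∪ {y | y ∈ c.W ∧ c.sg y = s ∧ c.r y < c.r x}) u p0 ∧
        Conn c.H (K ∪ {y | y ∈ c.W ∧ c.sg y = s ∧ c.r x < c.r y}) u q0 ∧
        Conn c.H (K ∪ c.Wᶜ) u c.z0 := by
      rintro K ⟨-, -, ⟨u, hu, rfl⟩, ⟨a, a1, p, p1, p2, p3, p4⟩, b, b1, q, q1, q2, q3, q4⟩
      refine ⟨u, rfl, ?_, ?_, ?_⟩
      · exact ((a1.comp.mono subset_union_left).trans (.single (.inl a1)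
          (.inr (by exact ⟨p1, p2, p4⟩)) (.inl p3))).trans
          (c.inseg p p1 p0 p01 (p2.trans p02.symm) _ fun y y1 y2 _ y3 =>
            .inr ⟨y1, y2.trans p02, y3.trans_lt (max_lt p4 p03)⟩)
      · exact ((b1.comp.mono subset_union_left).trans (.single (.inl b1)
          (.inr (by exact ⟨q1, q2, q4⟩)) (.inl q3))).trans
          (c.inseg q q1 q0 q01 (q2.trans q02.symm) _ fun y y1 y2 y3 _ =>
            .inr ⟨y1, y2.trans q02, (lt_min q4 q03).trans_le y3⟩)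
      · exact c.down u hu.1 _ fun y y1 y2 _ => c.inseg u hu.1 y y1 y2.symm _
          fun t t1 t2 _ _ => ⟨t1, (t2.trans y2).symm ▸ hu.2⟩
    obtain ⟨u1, e1, a1, b1, c1⟩ := key K1 m1
    obtain ⟨u2, e2, a2, b2, c2⟩ := key K2 m2
    obtain ⟨u3, e3, a3, b3, c3⟩ := key K3 m3
    have dj : ∀ u v, c.cp s u ≠ c.cp s v → Disjoint (c.cp s u) (c.cp s v) := fun u v ne =>
      disjoint_left.mpr fun y h1 h2 => ne ((c.cpe s u y h1).trans (c.cpe s v y h2).symm)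
    subst e1 e2 e3
    refine c.hK.six _ _ _ _ _ c.Wᶜ u1 u2 u3 p0 q0 c.z0 (dj _ _ n.1) (dj _ _ n.2.1) (dj _ _ n.2.2)
      (disjoint_left.mpr fun y h1 h2 => lt_asymm h1.2.2 h2.2.2)
      (disjoint_left.mpr fun y h1 h2 => h2 h1.1) (disjoint_left.mpr fun y h1 h2 => h2 h1.1)
      (fun y h1 h2 => ?_) a1 b1 c1 a2 b2 c2 a3 b3 c3
    have : y ∈ c.D s := by rcases h1 with h | h | h <;> exact Conn.right h
    rcases h2 with h | h | h
    exacts [this.2 h.2.1, this.2 h.2.1, h this.1]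

/-- Heights: edges change the height by one, and two neighbours of a segment that lie in
different components, both attached on the two sides of a point of it, have different heights. -/
theorem heights : ∃ h : V → ℤ, (∀ u v, c.sg u = c.sg v → h u = h v) ∧
    (∀ u ∈ c.W, ∀ v ∈ c.W, c.E u v → St (h u) (h v)) ∧
    ∀ x, ∀ u ∈ c.W, ∀ w ∈ c.W, ∀ a ∈ c.W, ∀ b ∈ c.W, c.sg a = c.sg x → c.sg b = c.sg x →
      c.E u a → c.E w b → c.cp (c.sg x) u ≠ c.cp (c.sg x) w → x ∈ c.J (c.sg x) (c.cp (c.sg x) u) →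
      x ∈ c.J (c.sg x) (c.cp (c.sg x) w) → h u ≠ h w := by
  classical
  have : Fintype V := Fintype.ofFinite V
  choose two htwo using c.two_sides
  have rep : ∀ t : Set V, ∃ v, (∃ u ∈ c.W, c.sg u = t) → v ∈ c.W ∧ c.sg v = t := fun t => by
    by_cases k : ∃ u ∈ c.W, c.sg u = t
    · exact k.imp fun u h _ => h
    · exact ⟨c.z0, fun h => absurd h k⟩
  choose ρ hρ using rep
  have eρ : ∀ s, ∀ v ∈ c.W, c.sg v ≠ s → c.cp s (ρ (c.sg v)) = c.cp s v := fun s v hv ne =>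
    have := hρ (c.sg v) ⟨v, hv, rfl⟩
    c.cp_seg this.1 ⟨hv, ne⟩ this.2
  let R : Finset (Set V × Set V) := Finset.univ.filter fun e =>
    ∃ u ∈ c.W, ∃ v ∈ c.W, c.E u v ∧ c.sg u = e.1 ∧ c.sg v = e.2
  have mR : ∀ a b, (a, b) ∈ R ↔ ∃ u ∈ c.W, ∃ v ∈ c.W, c.E u v ∧ c.sg u = a ∧ c.sg v = b :=
    fun a b => by simp only [R, Finset.mem_filter, Finset.mem_univ, true_and]
  obtain ⟨col, p1, p2⟩ := splitZ (fun t => c.cl (ρ t)) (fun s t => two s (c.cp s (ρ t))) R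
    (fun a b h => by
      obtain ⟨u, hu, v, hv, h, e1, e2⟩ := (mR _ _).mp h
      exact (mR _ _).mpr ⟨v, hv, u, hu, c.hE _ _ h, e2, e1⟩)
    (fun a b h => by
      obtain ⟨u, hu, v, hv, h', rfl, rfl⟩ := (mR _ _).mp h
      have a1 := hρ (c.sg u) ⟨u, hu, rfl⟩
      have a2 := hρ (c.sg v) ⟨v, hv, rfl⟩
      rw [c.sgcl _ a1.1 u a1.2, c.sgcl _ a2.1 v a2.2]
      exact c.hcl _ _ h')
    (fun s a b h n1 n2 => by
      obtain ⟨u, hu, v, hv, h', rfl, rfl⟩ := (mR _ _).mp h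
      rw [eρ s u hu n1, eρ s v hv n2, c.cp_edge ⟨hu, n1⟩ ⟨hv, n2⟩ h'])
  refine ⟨fun v => col (c.sg v), fun u v e => congrArg col e,
    fun u hu v hv h => p1 _ _ ((mR _ _).mpr ⟨u, hu, v, hv, h, rfl, rfl⟩),
    fun x u hu w hw a ha b hb ea eb ua wb ne j1 j2 => ?_⟩
  rw [Ne, p2 _ _ (c.sg x) ((mR _ _).mpr ⟨u, hu, a, ha, ua, rfl, ea⟩)
    ((mR _ _).mpr ⟨w, hw, b, hb, wb, rfl, eb⟩), eρ _ u hu (ea ▸ c.sgne hu ua),
    eρ _ w hw (eb ▸ c.sgne hw wb)]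
  exact htwo _ _ _ x ne j1 j2

/-- A vertex with neighbours on both sides of `x` in its segment is cut off from the other
neighbours of `x`. -/
lemma sep {u w v1 x v3 : V} (hu : u ∈ c.W) (hw : w ∈ c.W) (h1 : v1 ∈ c.W) (h2 : x ∈ c.W)
    (h3 : v3 ∈ c.W) (ne : u ≠ w) (e1 : c.sg v1 = c.sg x) (e3 : c.sg v3 = c.sg x)
    (l1 : c.r v1 < c.r x) (l2 : c.r x < c.r v3) (a1 : c.E u v1) (a3 : c.E u v3) (a2 : c.E w x) :
    c.cp (c.sg x) u ≠ c.cp (c.sg x) w := by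
  intro e
  have du : u ∈ c.D (c.sg x) := ⟨hu, e1 ▸ c.sgne hu a1⟩
  have dw : w ∈ c.D (c.sg x) := ⟨hw, c.sgne hw a2⟩
  have k0 : Conn c.H (c.D (c.sg x)) w u := (show u ∈ c.cp (c.sg x) w from e ▸ Conn.refl du)
  have cz : Conn c.H ((c.D (c.sg x) \ {u}) ∪ c.Wᶜ) w c.z0 := by
    rcases lt_or_gt_of_ne (c.hr.ne ne) with l | l
    · exact c.up w hw _ fun y a b k => ⟨⟨a, b.symm ▸ dw.2⟩, fun e => l.not_ge (e ▸ k)⟩
    · exact c.down w hw _ fun y a b k => ⟨⟨a, b.symm ▸ dw.2⟩, fun e => l.not_ge (e ▸ k)⟩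
  refine c.hK.six {y | y ∈ c.W ∧ c.sg y = c.sg x ∧ c.r y < c.r x}
    {y | y ∈ c.W ∧ c.sg y = c.sg x ∧ c.r x < c.r y}
    (c.D (c.sg x) \ {u}) {u} {x} c.Wᶜ v1 v3 w u x c.z0
    (disjoint_left.mpr fun y k k' => lt_asymm k.2.2 k'.2.2)
    (disjoint_left.mpr fun y k k' => k'.1.2 k.2.1)
    (disjoint_left.mpr fun y k k' => k'.1.2 k.2.1)
    (disjoint_singleton.mpr fun k => du.2 (congrArg _ k))
    (disjoint_singleton_left.mpr fun k => k hu) (disjoint_singleton_left.mpr fun k => k h2)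
    (fun y k k' => ?_)
    (.single (.inl ⟨h1, e1, l1⟩) (.inr rfl) (.inl (c.hE _ _ a1)))
    (c.inseg v1 h1 x h2 e1 _ fun y a b _ d => ?_)
    (c.down v1 h1 _ fun y a b k => ⟨a, b.trans e1, k.trans_lt l1⟩)
    (.single (.inl ⟨h3, e3, l2⟩) (.inr rfl) (.inl (c.hE _ _ a3)))
    (c.inseg v3 h3 x h2 e3 _ fun y a b d _ => ?_)
    (c.up v3 h3 _ fun y a b k => ⟨a, b.trans e3, l2.trans_le k⟩)
    (k0.mono fun y k => by by_cases y = u <;> simp [*])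
    (.single (.inl ⟨dw, ne.symm⟩) (.inr rfl) (.inl a2)) cz
  · rcases k with k | k | k <;> rcases k' with rfl | rfl | k'
    exacts [du.2 k.2.1, lt_irrefl _ k.2.2, k' k.1, du.2 k.2.1, lt_irrefl _ k.2.2, k' k.1,
      k.2 rfl, k.1.2 rfl, k' k.1.1]
  · rw [max_eq_right l1.le] at d
    exact d.lt_or_eq.imp (fun k => ⟨a, b, k⟩) fun k => c.hr k
  · rw [min_eq_right l2.le] at d
    exact d.lt_or_eq.imp (fun k => ⟨a, b, k⟩) fun k => (c.hr k).symm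

/-- The three common neighbours of two vertices lie in one segment. -/
lemma same_seg {u w v1 v2 v3 : V} (hu : u ∈ c.W) (hw : w ∈ c.W) (ne : u ≠ w)
    (h1 : v1 ∈ c.W ∧ c.E u v1 ∧ c.E w v1) (h2 : v2 ∈ c.W ∧ c.E u v2 ∧ c.E w v2)
    (h3 : v3 ∈ c.W ∧ c.E u v3 ∧ c.E w v3) (l1 : c.r v1 < c.r v2) (l2 : c.r v2 < c.r v3) :
    c.sg v1 = c.sg v2 ∧ c.sg v3 = c.sg v2 := by
  have nu : ∀ y ∈ c.W, ∀ x, c.E u x ∧ c.E w x → c.sg y = c.sg x → y ≠ u ∧ y ≠ w :=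
    fun y hy x hx e => ⟨fun k => c.sgne hu hx.1 (k ▸ e), fun k => c.sgne hw hx.2 (k ▸ e)⟩
  have same : ∀ B : Set V, v2 ∈ B → (∀ y ∈ B, y ∈ c.W ∧ c.sg y = c.sg v2) →
      Conn c.H (B ∪ c.Wᶜ) v2 c.z0 → (∀ y ∈ B, c.sg y = c.sg v1 → c.r v1 < c.r y) →
      (∀ y ∈ B, c.sg y = c.sg v3 → c.r y < c.r v3) → False := by
    intro B b1 b2 b3 b4 b5
    refine c.hK.six {u} {w} c.Wᶜ {y | y ∈ c.W ∧ c.sg y = c.sg v1 ∧ c.r y ≤ c.r v1} B
      {y | y ∈ c.W ∧ c.sg y = c.sg v3 ∧ c.r v3 ≤ c.r y} u w c.z0 v1 v2 v3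
      (disjoint_singleton.mpr ne)
      (disjoint_singleton_left.mpr fun k => k hu) (disjoint_singleton_left.mpr fun k => k hw)
      (disjoint_left.mpr fun y k k' => (b4 y k' k.2.1).not_ge k.2.2)
      (disjoint_left.mpr fun y k k' => ((l1.trans l2).trans_le k'.2.2).not_ge k.2.2)
      (disjoint_left.mpr fun y k k' => (b5 y k k'.2.1).not_ge k'.2.2) (fun y k k' => ?_)
      (.single (.inl rfl) (.inr ⟨h1.1, rfl, le_rfl⟩) (.inl h1.2.1))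
      (.single (.inl rfl) (.inr b1) (.inl h2.2.1))
      (.single (.inl rfl) (.inr ⟨h3.1, rfl, le_rfl⟩) (.inl h3.2.1))
      (.single (.inl rfl) (.inr ⟨h1.1, rfl, le_rfl⟩) (.inl h1.2.2))
      (.single (.inl rfl) (.inr b1) (.inl h2.2.2))
      (.single (.inl rfl) (.inr ⟨h3.1, rfl, le_rfl⟩) (.inl h3.2.2))
      (((c.down v1 h1.1 _ fun y a b k => by exact ⟨a, b, k⟩).symm c.Hs).mono (union_comm _ _).le)
      ((b3.symm c.Hs).mono (union_comm _ _).le)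
      (((c.up v3 h3.1 _ fun y a b k => by exact ⟨a, b, k⟩).symm c.Hs).mono (union_comm _ _).le)
    have : y ∈ c.W ∧ y ≠ u ∧ y ≠ w := by
      rcases k' with k' | k' | k'
      · exact ⟨k'.1, nu y k'.1 _ h1.2 k'.2.1⟩
      · exact ⟨(b2 y k').1, nu y (b2 y k').1 _ h2.2 (b2 y k').2⟩
      · exact ⟨k'.1, nu y k'.1 _ h3.2 k'.2.1⟩
    rcases k with k | k | k
    exacts [this.2.1 k, this.2.2 k, k this.1]
  exact ⟨by_contra fun n =>
    same {y | y ∈ c.W ∧ c.sg y = c.sg v2 ∧ c.r y ≤ c.r v2} ⟨h2.1, rfl, le_rfl⟩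
      (fun y k => ⟨k.1, k.2.1⟩) (c.down v2 h2.1 _ fun y a b k => ⟨a, b, k⟩)
      (fun y k e => absurd (e.symm.trans k.2.1) n) fun y k _ => k.2.2.trans_lt l2,
    by_contra fun n =>
    same {y | y ∈ c.W ∧ c.sg y = c.sg v2 ∧ c.r v2 ≤ c.r y} ⟨h2.1, rfl, le_rfl⟩
      (fun y k => ⟨k.1, k.2.1⟩) (c.up v2 h2.1 _ fun y a b k => ⟨a, b, k⟩)
      (fun y k _ => l1.trans_le k.2.2) fun y k e => absurd (e.symm.trans k.2.1) n⟩

end Ctx

end Pool.Agent.Lib.MP_c1785c_lc.S3
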