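import Pool.Agent.Lib.MP_c1785c_lc.CombNo

/-!
Integer heights for a family of segments that split each other into two sides.
-/

set_option autoImplicit false

namespace Pool.Agent.Lib.MP_c1785c_lc.S3

open Set

/-- The two heights differ by exactly one. -/
def St (a b : ℤ) : Prop := a = b + 1 ∨ b = a + 1

lemma St.symm {a b : ℤ} (h : St a b) : St b a := Or.symm h

lemma isoZ (x0 y0 x1 y1 : ℤ) (h : St y0 x0) (h' : St y1 x1) : ∃ π : ℤ → ℤ,
    (∀ a b, St a b → St (π a) (π b)) ∧ (∀ a b, π a = π b → a = b) ∧ π x1 = x0 ∧ π y1 ≠ y0 := by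
  unfold St at *
  by_cases c : y0 - x0 = y1 - x1
  · refine ⟨fun t => x0 + x1 - t, fun a b k => ?_, fun a b k => ?_, ?_, ?_⟩ <;> beta_reduce at * <;>
      omega
  · refine ⟨fun t => x0 - x1 + t, fun a b k => ?_, fun a b k => ?_, ?_, ?_⟩ <;> beta_reduce at * <;>
      omega

lemma splitZ {S : Type} (ty : S → Bool) (side : S → S → Bool) (R : Finset (S × S))
    (hs : ∀ a b, (a, b) ∈ R → (b, a) ∈ R) (ht : ∀ a b, (a, b) ∈ R → ty a ≠ ty b)
    (h : ∀ s a b, (a, b) ∈ R → a ≠ s → b ≠ s → side s a = side s b) :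
    ∃ col : S → ℤ, (∀ a b, (a, b) ∈ R → St (col a) (col b)) ∧
      ∀ a b s, (a, s) ∈ R → (b, s) ∈ R → (col a = col b ↔ side s a = side s b) := by
  classical
  induction R using Finset.strongInduction with
  | H R ih =>
  by_cases c : ∃ s a b, (a, s) ∈ R ∧ (b, s) ∈ R ∧ side s a = false ∧ side s b = true
  · obtain ⟨s, a, b, ha, hb, sa, sb⟩ := c
    have ne : ∀ x y, (x, y) ∈ R → x ≠ y := fun x y k e => ht x y k (congrArg ty e)
    let Q : Bool → Finset (S × S) := fun j => R.filter fun e =>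
      (e.1 ≠ s → side s e.1 = j) ∧ (e.2 ≠ s → side s e.2 = j)
    have mem : ∀ j x y, (x, y) ∈ Q j ↔ (x, y) ∈ R ∧ (x ≠ s → side s x = j) ∧
        (y ≠ s → side s y = j) := fun j x y => Finset.mem_filter
    have IH := fun (j : Bool) (x : S) (hx : (x, s) ∈ R) (hj : side s x ≠ j) =>
      ih (Q j) (Finset.filter_ssubset.mpr ⟨_, hx, fun k => hj (k.1 (ne _ _ hx))⟩)
        (fun x y k => (mem j y x).mpr ⟨hs _ _ ((mem j x y).mp k).1, ((mem j x y).mp k).2.symm⟩)
        (fun x y k => ht _ _ ((mem j x y).mp k).1)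
        (fun s x y k => h s x y ((mem j x y).mp k).1)
    obtain ⟨c0, p0, q0⟩ := IH false b hb (by simp [sb])
    obtain ⟨c1, p1, q1⟩ := IH true a ha (by simp [sa])
    have ma : (a, s) ∈ Q false := (mem _ _ _).mpr ⟨ha, fun _ => sa, fun k => absurd rfl k⟩
    have mb : (b, s) ∈ Q true := (mem _ _ _).mpr ⟨hb, fun _ => sb, fun k => absurd rfl k⟩
    obtain ⟨π, π0, π1, π2, π3⟩ := isoZ (c0 s) (c0 a) (c1 s) (c1 b) (p0 _ _ ma) (p1 _ _ mb)
    let col : S → ℤ := fun t => if t ≠ s ∧ side s t = true then π (c1 t) else c0 t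
    have e0 : ∀ x, (x ≠ s → side s x = false) → col x = c0 x := fun x k =>
      if_neg fun k' => by simpa [k k'.1] using k'.2
    have e1 : ∀ x, (x ≠ s → side s x = true) → col x = π (c1 x) := fun x k => by
      by_cases c : x = s
      · rw [c, π2]; exact e0 s fun k => absurd rfl k
      · exact if_pos ⟨c, k c⟩
    have cases : ∀ x y, (x, y) ∈ R → x ≠ s → (x, y) ∈ Q (side s x) := fun x y k c =>
      (mem _ _ _).mpr ⟨k, fun _ => rfl, fun c' => (h s x y k c c').symm⟩
    have P : ∀ j x y, (x, y) ∈ Q j → St (col x) (col y) := by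
      intro j x y k
      have k' := (mem _ _ _).mp k
      cases j
      · rw [e0 x k'.2.1, e0 y k'.2.2]; exact p0 _ _ k
      · rw [e1 x k'.2.1, e1 y k'.2.2]; exact π0 _ _ (p1 _ _ k)
    have P' : ∀ j x y t, (x, t) ∈ Q j → (y, t) ∈ Q j → (col x = col y ↔ side t x = side t y) := by
      intro j x y t k l
      have k' := (mem _ _ _).mp k
      have l' := (mem _ _ _).mp l
      cases j
      · rw [e0 x k'.2.1, e0 y l'.2.1]; exact q0 _ _ _ k l
      · rw [e1 x k'.2.1, e1 y l'.2.1, ← q1 _ _ _ k l]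
        exact ⟨π1 _ _, congrArg π⟩
    have sy : ∀ j x y, (x, y) ∈ Q j → (y, x) ∈ Q j := fun j x y k =>
      (mem j y x).mpr ⟨hs _ _ ((mem j x y).mp k).1, ((mem j x y).mp k).2.symm⟩
    refine ⟨col, fun x y k => ?_, fun x y t k l => ?_⟩
    · by_cases c : x = s
      · exact (P _ _ _ (cases y x (hs _ _ k) (c ▸ (ne _ _ k).symm))).symm
      · exact P _ _ _ (cases x y k c)
    · by_cases c : t = s
      · subst c
        have k' := cases x t k (ne _ _ k)
        have l' := cases y t l (ne _ _ l)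
        have mix : ∀ x y, (x, t) ∈ Q false → (y, t) ∈ Q true → col x ≠ col y := by
          intro x y k l
          have k' := (mem _ _ _).mp k
          have l' := (mem _ _ _).mp l
          rw [e0 x k'.2.1, e1 y l'.2.1, (q0 x a t k ma).mpr ((k'.2.1 (ne _ _ k'.1)).trans sa.symm),
            (q1 y b t l mb).mpr ((l'.2.1 (ne _ _ l'.1)).trans sb.symm)]
          exact π3.symm
        cases hx : side t x <;> cases hy : side t y <;> rw [hx] at k' <;> rw [hy] at l'
        · rw [P' _ _ _ _ k' l', hx, hy]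
        · simpa using mix x y k' l'
        · simpa using (mix y x l' k').symm
        · rw [P' _ _ _ _ k' l', hx, hy]
      · exact P' _ _ _ _ (sy _ _ _ (cases t x (hs _ _ k) c)) (sy _ _ _ (cases t y (hs _ _ l) c))
  · refine ⟨fun t => if ty t = true then 1 else 0, fun a b k => ?_, fun a b s k l => ?_⟩
    · have := ht a b k
      cases ha : ty a <;> cases hb : ty b <;> simp only [ha, hb] at this ⊢
      · exact absurd rfl this
      · exact .inr (by simp)
      · exact .inl (by simp)
      · exact absurd rfl this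
    · have e1 : ty a = ty b :=
        (by decide : ∀ x y z : Bool, x ≠ z → y ≠ z → x = y) _ _ _ (ht _ _ k) (ht _ _ l)
      simp only [e1, true_iff]
      cases ha : side s a <;> cases hb : side s b
      · rfl
      · exact absurd ⟨s, a, b, k, l, ha, hb⟩ c
      · exact absurd ⟨s, b, a, l, k, hb, ha⟩ c
      · rfl

end Pool.Agent.Lib.MP_c1785c_lc.S3
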