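import Pool.Agent.Lib.MP_c1785c_lc.S3.Gear
import Pool.Agent.Lib.MP_c1785c_lc.Tab

/-!
The subcubic gadgets: towers of gears, rails, nodes and links, with their levelled drawings.
A local name `32 * x + y` stands for the vertex with horizontal rank `x` and level `y`.
-/

set_option autoImplicit false

namespace Pool.Agent.Lib.MP_c1785c_lc.S3

def gv (i : Fin 13) : ℕ :=
  [256, 161, 98, 67, 68, 131, 226, 225, 193, 99, 194, 162, 130].getD i 0

def gearE (b : ℕ) : List (ℕ × ℕ) := GE.map fun e => (gv e.1 + b, gv e.2 + b)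

def tower (n o : ℕ) : List (ℕ × ℕ) :=
  (List.range n).flatMap fun j => gearE (o + 2 * j) ++ if j + 1 < n then
    [(131 + (o + 2 * j), 256 + (o + 2 * (j + 1))), (68 + (o + 2 * j), 67 + (o + 2 * (j + 1)))]
    else []

def rail (a x n b : ℕ) : List (ℕ × ℕ) :=
  (a, x) :: (((List.range n).map fun i => (x + i, x + (i + 1))) ++ [(x + n, b)])

def node : List (ℕ × ℕ) :=
  [(98, 35), (35, 36), (36, 37), (37, 38), (38, 39), (39, 40), (40, 41), (41, 42), (42, 43),
  (43, 44), (44, 45), (45, 46), (46, 47), (47, 48), (48, 49), (49, 50), (50, 51), (51, 52),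
  (52, 53), (53, 54), (54, 55), (55, 56), (56, 57), (57, 90), (256, 289), (289, 290), (290, 291),
  (291, 292), (292, 293), (293, 294), (294, 295), (295, 296), (296, 297), (297, 298), (298, 299),
  (299, 300), (300, 301), (301, 302), (302, 303), (303, 304), (304, 305), (305, 306), (306, 307),
  (307, 308), (308, 309), (309, 310), (310, 311), (311, 312), (312, 153), (256, 161), (161, 98),
  (98, 67), (67, 68), (68, 131), (131, 226), (226, 225), (225, 256), (193, 194), (193, 162),
  (193, 130), (99, 194), (99, 162), (99, 130), (194, 225), (130, 161), (131, 258), (68, 69),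
  (258, 163), (163, 100), (100, 69), (69, 70), (70, 133), (133, 228), (228, 227), (227, 258),
  (195, 196), (195, 164), (195, 132), (101, 196), (101, 164), (101, 132), (196, 227), (132, 163),
  (133, 260), (70, 71), (260, 165), (165, 102), (102, 71), (71, 72), (72, 135), (135, 230),
  (230, 229), (229, 260), (197, 198), (197, 166), (197, 134), (103, 198), (103, 166), (103, 134),
  (198, 229), (134, 165), (135, 262), (72, 73), (262, 167), (167, 104), (104, 73), (73, 74),
  (74, 137), (137, 232), (232, 231), (231, 262), (199, 200), (199, 168), (199, 136), (105, 200),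
  (105, 168), (105, 136), (200, 231), (136, 167), (137, 264), (74, 75), (264, 169), (169, 106),
  (106, 75), (75, 76), (76, 139), (139, 234), (234, 233), (233, 264), (201, 202), (201, 170),
  (201, 138), (107, 202), (107, 170), (107, 138), (202, 233), (138, 169), (139, 266), (76, 77),
  (266, 171), (171, 108), (108, 77), (77, 78), (78, 141), (141, 236), (236, 235), (235, 266),
  (203, 204), (203, 172), (203, 140), (109, 204), (109, 172), (109, 140), (204, 235), (140, 171),
  (141, 268), (78, 79), (268, 173), (173, 110), (110, 79), (79, 80), (80, 143), (143, 238),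
  (238, 237), (237, 268), (205, 206), (205, 174), (205, 142), (111, 206), (111, 174), (111, 142),
  (206, 237), (142, 173), (143, 270), (80, 81), (270, 175), (175, 112), (112, 81), (81, 82),
  (82, 145), (145, 240), (240, 239), (239, 270), (207, 208), (207, 176), (207, 144), (113, 208),
  (113, 176), (113, 144), (208, 239), (144, 175), (145, 272), (82, 83), (272, 177), (177, 114),
  (114, 83), (83, 84), (84, 147), (147, 242), (242, 241), (241, 272), (209, 210), (209, 178),
  (209, 146), (115, 210), (115, 178), (115, 146), (210, 241), (146, 177), (147, 274), (84, 85),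
  (274, 179), (179, 116), (116, 85), (85, 86), (86, 149), (149, 244), (244, 243), (243, 274),
  (211, 212), (211, 180), (211, 148), (117, 212), (117, 180), (117, 148), (212, 243), (148, 179),
  (149, 276), (86, 87), (276, 181), (181, 118), (118, 87), (87, 88), (88, 151), (151, 246),
  (246, 245), (245, 276), (213, 214), (213, 182), (213, 150), (119, 214), (119, 182), (119, 150),
  (214, 245), (150, 181), (151, 278), (88, 89), (278, 183), (183, 120), (120, 89), (89, 90),
  (90, 153), (153, 248), (248, 247), (247, 278), (215, 216), (215, 184), (215, 152), (121, 216),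
  (121, 184), (121, 152), (216, 247), (152, 183)]

lemma node_eq : node = rail 98 35 22 90 ++ (rail 256 289 23 153 ++ tower 12 0) := by
  decide +kernel

def piece : List (ℕ × ℕ) :=
  [(2304, 2081), (2081, 2082), (2082, 2083), (2083, 2084), (2084, 2085), (2085, 2086),
  (2086, 2087), (2087, 2120), (2304, 2209), (2209, 2146), (2146, 2115), (2115, 2116),
  (2116, 2179), (2179, 2274), (2274, 2273), (2273, 2304), (2241, 2242), (2241, 2210),
  (2241, 2178), (2147, 2242), (2147, 2210), (2147, 2178), (2242, 2273), (2178, 2209),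
  (2179, 2306), (2116, 2117), (2306, 2211), (2211, 2148), (2148, 2117), (2117, 2118),
  (2118, 2181), (2181, 2276), (2276, 2275), (2275, 2306), (2243, 2244), (2243, 2212),
  (2243, 2180), (2149, 2244), (2149, 2212), (2149, 2180), (2244, 2275), (2180, 2211),
  (2181, 2308), (2118, 2119), (2308, 2213), (2213, 2150), (2150, 2119), (2119, 2120),
  (2120, 2183), (2183, 2278), (2278, 2277), (2277, 2308), (2245, 2246), (2245, 2214),
  (2245, 2182), (2151, 2246), (2151, 2214), (2151, 2182), (2246, 2277), (2182, 2213)]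

lemma piece_eq : piece = rail 2304 2081 6 2120 ++ tower 3 2048 := by decide +kernel

def path7 : List (ℕ × ℕ) :=
  [(2081, 2114), (2114, 2147), (2147, 2180), (2180, 2213), (2213, 2246), (2246, 2279)]

def sA (d : ℕ) : ℕ := if d = 1 then 288 else 32

def sB (d : ℕ) : ℕ := if d = 1 then 1056 else 1312

/-- the edges of a node (`d = 0`) and of the links -/
def ed3 (d τ : ℕ) : List (ℕ × ℕ) :=
  if d = 0 then node else if τ = 0 then (sA d + 22, 2081) :: (2279, sB d + 4) :: path7 else
    if τ = 1 then [(sA d + 21, sB d + 4), (sA d + 24, sB d + 5)] else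
      (sA d + 22, 2081) :: (2183, sB d + 4) :: piece

def vs3 (d τ : ℕ) : List ℕ := (ed3 d τ).flatMap fun e => [e.1, e.2]

def loc (k : ℕ) : ℕ := if k < 1024 then k else if k < 2048 then k - 1024 else k

/-- level of a vertex -/
def T3 (τ : ℕ) (a b : Fin 3) (k : ℕ) : ℕ :=
  if k < 1024 then 4 * a + k % 32 else if k < 2048 then 18 + 4 * b + k % 32 else
    if τ = 0 then (if k % 32 ≤ 4 + 2 * b - 2 * a then 22 + 4 * a + k % 32 else
      22 + 4 * a + 2 * (4 + 2 * b - 2 * a) - k % 32) else
    if a < b then 18 + 2 * a + 2 * b + k % 32 else 26 + 2 * a + 2 * b - k % 32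

/-- relative horizontal position of a vertex -/
def R3 (d k : ℕ) : ℕ :=
  if k < 1024 then 40 + k / 32 else if k < 2048 then (if d = 1 then 80 else 0) + (k - 1024) / 32
    else if d = 1 then 60 + (k - 2048) / 32 else 30 - (k - 2048) / 32

lemma t_par : ∀ d < 3, ∀ τ < 3, ∀ e ∈ ed3 d τ, par (loc e.1) ≠ par (loc e.2) := by decide +kernel

lemma t_step : ∀ d < 3, ∀ τ < 3, ∀ a b, Ok τ a b → ∀ e ∈ ed3 d τ,
    T3 τ a b e.2 = T3 τ a b e.1 + 1 ∨ T3 τ a b e.1 = T3 τ a b e.2 + 1 := by decide +kernel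

lemma t_node : ∀ k ∈ vs3 0 0, 32 ≤ k ∧ k < 320 ∧ k % 32 ≤ 26 := by decide +kernel

lemma t_kind : ∀ d ∈ [1, 2], ∀ τ < 3, ∀ k ∈ vs3 d τ,
    ((k = sA d + 21 ∨ k = sA d + 22 ∨ k = sA d + 24) ∨ k = sB d + 4 ∨ k = sB d + 5) ∨
      (2080 ≤ k ∧ k < 2368) := by decide +kernel

lemma t_band : ∀ d ∈ [1, 2], ∀ τ < 3, ∀ a b, Ok τ a b → ∀ k ∈ vs3 d τ,
    20 ≤ T3 τ a b k ∧ T3 τ a b k ≤ 34 := by decide +kernel

lemma t_inj : ∀ d ∈ [1, 2], ∀ τ < 3, ∀ a b, Ok τ a b → ∀ k ∈ (vs3 d τ).dedup,
    ∀ k' ∈ (vs3 d τ).dedup, T3 τ a b k = T3 τ a b k' → R3 d k = R3 d k' → k = k' := by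
  decide +kernel

/-- the edges directed upwards -/
def ups3 (d τ : ℕ) (a b : Fin 3) : List (ℕ × ℕ) :=
  (ed3 d τ).map fun e => if T3 τ a b e.1 < T3 τ a b e.2 then e else e.swap

lemma t_nc : ∀ d ∈ [1, 2], ∀ τ < 3, ∀ a b, Ok τ a b → ∀ e ∈ ups3 d τ a b, ∀ f ∈ ups3 d τ a b,
    T3 τ a b e.1 = T3 τ a b f.1 → R3 d e.1 < R3 d f.1 → R3 d e.2 ≤ R3 d f.2 := by decide +kernel

lemma t_nc0 : ∀ e ∈ ups3 0 0 0 0, ∀ f ∈ ups3 0 0 0 0,
    e.1 % 32 = f.1 % 32 → e.1 / 32 < f.1 / 32 → e.2 / 32 ≤ f.2 / 32 := by decide +kernel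

/-- the neighbours of a vertex inside a gadget -/
def nb (d τ k : ℕ) : List ℕ :=
  (ed3 d τ).filterMap fun e => if e.1 = k then some e.2 else if e.2 = k then some e.1 else none

lemma t_deg : ∀ d < 3, ∀ τ < (if d = 0 then 1 else 3), ∀ k ∈ vs3 d τ, (nb d τ k).length ≤ 3 := by
  decide +kernel

lemma t_port : ∀ d ∈ [1, 2], ∀ k ∈ [sA d + 21, sA d + 22, sA d + 24, sB d + 4, sB d + 5],
    loc k ∈ vs3 0 0 ∧ (nb 0 0 (loc k)).length ≤ 2 ∧ ∀ τ < 3, (nb d τ k).length ≤ 1 := by
  decide +kernel

/-- one step of a search that avoids the set `av`; sets are bit masks -/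
def stp (av S : ℕ) (e : ℕ × ℕ) : ℕ :=
  if S.testBit e.1 || S.testBit e.2 then
    (if av.testBit e.1 || av.testBit e.2 then S else S ||| (2 ^ e.1 ||| 2 ^ e.2)) else S

/-- one sweep of the search -/
def sw : List (ℕ × ℕ) → ℕ → ℕ → ℕ
  | [], _, S => S
  | e :: es, av, S =>
    match stp av S e with
    | 0 => sw es av 0
    | k + 1 => sw es av (k + 1)

lemma sw_cons (e : ℕ × ℕ) (es : List (ℕ × ℕ)) (av S : ℕ) :
    sw (e :: es) av S = sw es av (stp av S e) := by
  rw [sw]
  cases stp av S e <;> rfl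

def reach (es : List (ℕ × ℕ)) (av n k0 : ℕ) : ℕ := (sw (es ++ es.reverse) av)^[n] (2 ^ k0)

lemma sw_ok (φ : ℕ → Prop) (av : ℕ) (es : List (ℕ × ℕ))
    (h : ∀ e ∈ es, av.testBit e.1 = false → av.testBit e.2 = false → (φ e.1 ↔ φ e.2)) (S : ℕ)
    (hS : ∀ k, S.testBit k = true → φ k) : ∀ k, (sw es av S).testBit k = true → φ k := by
  induction es generalizing S with
  | nil => exact hS
  | cons e es ih =>
    rw [sw_cons]
    refine ih (fun f hf => h f (List.mem_cons_of_mem _ hf)) _ fun k => ?_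
    unfold stp
    split_ifs with a b
    · exact hS k
    · simp only [Bool.or_eq_true, not_or, Bool.not_eq_true] at a b
      have := h e List.mem_cons_self b.1 b.2
      have p : φ e.1 := a.elim (hS _) fun a => this.mpr (hS _ a)
      simp only [Nat.testBit_or, Bool.or_eq_true, Nat.testBit_two_pow, decide_eq_true_eq]
      rintro (c | rfl | rfl)
      exacts [hS k c, p, this.mp p]
    · exact hS k

lemma reach_ok (φ : ℕ → Prop) {av n k0 : ℕ} {es : List (ℕ × ℕ)}
    (h : ∀ e ∈ es, av.testBit e.1 = false → av.testBit e.2 = false → (φ e.1 ↔ φ e.2))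
    (h0 : φ k0) : ∀ k, (reach es av n k0).testBit k = true → φ k := by
  unfold reach
  induction n with
  | zero =>
    intro k hk
    rw [Function.iterate_zero_apply, Nat.testBit_two_pow, decide_eq_true_eq] at hk
    exact hk ▸ h0
  | succ n ih =>
    rw [Function.iterate_succ_apply']
    exact sw_ok φ av _ (fun e he => h e ((List.mem_append.mp he).elim id List.mem_reverse.mp)) _ ih

/-- the mask of the vertices of a gear that fail `p` -/
def mk (p : Fin 13 → Bool) (b : ℕ) : ℕ :=
  (List.finRange 13).foldl (fun S i => if p i then S else S ||| 2 ^ (gv i + b)) 0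

def rt (d τ : ℕ) : ℕ := if d = 0 then 292 else sA d + if τ = 1 then 21 else 22

lemma r_node : ∀ k ∈ vs3 0 0, (reach node 0 2 292).testBit k = true := by decide +kernel

lemma r_link : ∀ d ∈ [1, 2], ∀ τ < 3, (∀ k ∈ vs3 d τ, 2048 ≤ k →
    (reach (ed3 d τ) (2 ^ (sB d + 4) ||| 2 ^ (sB d + 5)) 2 (rt d τ)).testBit k = true) ∧
    (reach (ed3 d τ) (2 ^ (sB d + 5)) 2 (rt d τ)).testBit (sB d + 4) = true := by decide +kernel

/-- both outer connections of the gear with shift `b` exist inside the gadget -/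
def GOk (d τ b : ℕ) : Prop :=
  (∀ i, i = 0 ∨ (mk (fun i => i = 0) b).testBit (gv i + b) = true) ∧
  (∀ i, (2 ≤ i ∧ i ≤ 6) ∨ (mk (fun i => 2 ≤ i ∧ i ≤ 6) b).testBit (gv i + b) = true) ∧
  (∀ i, gv i + b ≠ rt d τ) ∧
  (reach (ed3 d τ) (mk (fun i => i = 0) b) 2 (rt d τ)).testBit (gv 0 + b) = true ∧
  (reach (ed3 d τ) (mk (fun i => 2 ≤ i ∧ i ≤ 6) b) 2 (rt d τ)).testBit (gv 4 + b) = true

instance (d τ b : ℕ) : Decidable (GOk d τ b) := by unfold GOk; infer_instance

lemma r_gear0 : ∀ j < 12, GOk 0 0 (0 + 2 * j) := by decide +kernel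

lemma r_gear1 : ∀ d ∈ [1, 2], ∀ j < 3, GOk d 2 (2048 + 2 * j) := by decide +kernel

lemma gv_inj : Function.Injective gv := by decide

end Pool.Agent.Lib.MP_c1785c_lc.S3
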